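import Pool.Agent.Work.MP_8a95ee_gt.Fg.Main

/-!
# Spaces over nonpositively curved cubulated manifolds: the final statement
-/

set_option autoImplicit false

namespace MP8a95ee.Npc

open Classical

/-- the final statement -/
def S_FinalG : Prop := ∀ m N : ℕ, ∃ c : ℝ, 0 < c ∧
  ∀ (X : SimpleGraph ℕ) (_ : IsMedianGraph X) (_ : LocFin X)
    (_ : ∀ x, RA.IsHSphere (link X x) (m + 1))
    (Γ : Subgroup (Equiv.Perm ℕ)) (V : Finset ℕ) (_ : IsDeck X Γ V)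
    (E' E F : Type) [TopologicalSpace E'] [TopologicalSpace E] [TopologicalSpace F]
    [MulAction Γ E'] [ContinuousConstSMul Γ E'] (π : C(E', E)) (_ : IsReg Γ π)
    (ρ : E' → ℕ) (_ : ∀ (g : Γ) (a : E'), ρ (g • a) = g • ρ a)
    (b : ℕ) (z : SChain E' (m + b + 1)) (_ : bd (push π z) = 0)
    (x₀ : ℕ) (s₀ : Fin (m + 1) → ℕ) (_ : Function.Injective s₀)
    (_ : Finset.univ.image s₀ ∈ link X x₀) (r : C(E', F)),
  (∀ ν : ℝ, (∀ y : SChain F (b + 1), ν ≤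
      l1 (push r (fibW X Γ ρ (show m + b + 1 = (m + 1) + b by omega) x₀ s₀ z) + bd y)) →
    ∀ w : SChain E (m + b + 2),
    c * (∑ x ∈ V.filter (Tame X m N), |∑ s ∈ link X x, (-1 / 2 : ℝ) ^ s.card|) * ν ≤
      l1 (push π z + bd w)) ∧
  ((∀ ε : ℝ, 0 < ε → ∃ w : SChain E (m + b + 2), l1 (push π z + bd w) < ε) →
    (∀ ε : ℝ, 0 < ε → ∃ y : SChain F (b + 1),
      l1 (push r (fibW X Γ ρ (show m + b + 1 = (m + 1) + b by omega) x₀ s₀ z) + bd y) < ε) ∨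
    (∀ x, ∑ s ∈ link X x, (-1 / 2 : ℝ) ^ s.card = 0) ∧ eulerChar X Γ V = 0)

namespace Fg

/-- the curvature is invariant -/
theorem curv_inv (hCU5 : S_CU5) {X : SimpleGraph ℕ} (hX : IsMedianGraph X) (hf : LocFin X)
    {Γ : Subgroup (Equiv.Perm ℕ)} {V : Finset ℕ} (hD : IsDeck X Γ V)
    (h : ∀ x ∈ V, ∑ s ∈ link X x, (-1 / 2 : ℝ) ^ s.card = 0) (x : ℕ) :
    ∑ s ∈ link X x, (-1 / 2 : ℝ) ^ s.card = 0 := by
  obtain ⟨y, ⟨hy, g, hg, hgy⟩, -⟩ := hD.rep x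
  obtain ⟨-, -, -, h4, -, -, -⟩ := hCU5 X hX hf g (hD.auto g hg)
  rw [← h y hy, ← hgy]
  refine Finset.sum_nbij (fun s => s.image g) ?_ ?_ ?_ ?_
  · intro s hs
    exact (h4 x s).2 hs
  · intro s _ s' _ hss
    exact Finset.image_injective g.injective hss
  · intro t ht
    refine ⟨t.image (g⁻¹ : Equiv.Perm ℕ), ?_, ?_⟩
    · rw [Finset.mem_coe, ← h4 x, Finset.image_image]
      have h5 : t.image (g ∘ (g⁻¹ : Equiv.Perm ℕ)) = t := by
        rw [show (g ∘ (g⁻¹ : Equiv.Perm ℕ)) = id by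
          funext a
          simp, Finset.image_id]
      rw [h5]
      exact ht
    · show (t.image (g⁻¹ : Equiv.Perm ℕ)).image g = t
      rw [Finset.image_image, show (g ∘ (g⁻¹ : Equiv.Perm ℕ)) = id by
        funext a
        simp, Finset.image_id]
  · intro s _
    rw [Finset.card_image_of_injective s g.injective]

theorem prfFinalG (hFGM : S_FGM) (hCU5 : S_CU5) (hDEG : S_DEG) (hZ5 : S_ZC5) : S_FinalG := by
  intro m N
  obtain ⟨c, hc, h⟩ := hFGM m N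
  refine ⟨c, hc, ?_⟩
  intro X hX hf hS Γ V hD E' E F _ _ _ _ _ π hπ ρ hρ b z hz x₀ s₀ hs1 hs2 r
  have hs₀ : s₀ ∈ Dom X (m + 1) x₀ := by
    rw [ZC4.mem_Dom]
    exact ⟨hs1, hs2⟩
  refine ⟨fun ν hν w => h X hX hf hS Γ V hD E' E F π hπ ρ hρ b z hz x₀ s₀ hs₀ r ν hν w, ?_⟩
  intro hE
  by_cases hFv : ∀ ε : ℝ, 0 < ε → ∃ y : SChain F (b + 1),
      l1 (push r (fibW X Γ ρ (show m + b + 1 = (m + 1) + b by omega) x₀ s₀ z) + bd y) < ε
  · exact Or.inl hFv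
  · right
    push Not at hFv
    obtain ⟨ν, hν0, hν⟩ := hFv
    obtain ⟨N', hN'⟩ := hDEG X hX hf Γ V hD
    obtain ⟨c', hc', h'⟩ := hFGM m N'
    have h2 : ∀ ε : ℝ, 0 < ε → c' * (∑ x ∈ V.filter (Tame X m N'),
        |∑ s ∈ link X x, (-1 / 2 : ℝ) ^ s.card|) * ν ≤ ε := by
      intro ε hε
      obtain ⟨w, hw⟩ := hE ε hε
      exact (h' X hX hf hS Γ V hD E' E F π hπ ρ hρ b z hz x₀ s₀ hs₀ r ν hν w).trans hw.le
    have h3 : V.filter (Tame X m N') = V := by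
      rw [Finset.filter_eq_self]
      intro x _
      left
      exact hN' x
    rw [h3] at h2
    have h4 : c' * (∑ x ∈ V, |∑ s ∈ link X x, (-1 / 2 : ℝ) ^ s.card|) * ν ≤ 0 :=
      le_of_forall_pos_le_add fun ε hε => by
        rw [zero_add]
        exact h2 ε hε
    have h5 : ∑ x ∈ V, |∑ s ∈ link X x, (-1 / 2 : ℝ) ^ s.card| ≤ 0 := by
      by_contra h6
      push Not at h6
      have h7 : 0 < c' * (∑ x ∈ V, |∑ s ∈ link X x, (-1 / 2 : ℝ) ^ s.card|) * ν := by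
        positivity
      linarith
    have h6 : ∀ x ∈ V, ∑ s ∈ link X x, (-1 / 2 : ℝ) ^ s.card = 0 := by
      intro x hx
      have h7 := (Finset.sum_eq_zero_iff_of_nonneg
        (fun x _ => abs_nonneg (∑ s ∈ link X x, (-1 / 2 : ℝ) ^ s.card))).1
        (le_antisymm h5 (Finset.sum_nonneg fun x _ => abs_nonneg _)) x hx
      exact abs_eq_zero.1 h7
    have h8 : (eulerChar X Γ V : ℝ) = 0 := by
      have h9 := congrArg (fun q : ℚ => (q : ℝ)) (hZ5 X hX hf Γ V hD)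
      push_cast at h9
      rw [h9]
      exact Finset.sum_eq_zero h6
    exact ⟨curv_inv hCU5 hX hf hD h6, by exact_mod_cast h8⟩

end Fg

end MP8a95ee.Npc
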