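import Pool.Agent.Work.MP_8a95ee_gt.Fg.Stmts

/-!
# The cochain of a cube is the cochain of a local function
-/

set_option autoImplicit false

namespace MP8a95ee.Npc.GCWFP

open Classical

theorem hI_In {X : SimpleGraph ℕ} {x a : ℕ} (ha : a ∈ nbr X x) (y : ℕ) :
    hI a (In X x y) = wall X x a y := by
  unfold hI wall In
  by_cases h : X.dist a y < X.dist x y
  · rw [if_pos h, if_pos (Finset.mem_filter.mpr ⟨ha, h⟩)]
  · have h2 : a ∉ (nbr X x).filter fun a => X.dist a y < X.dist x y :=
      fun h' => h (Finset.mem_filter.mp h').2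
    rw [if_neg h, if_neg h2]

theorem prf (hFS1 : S_FS1) : S_CWF := by
  intro X _ _ m x s hs v
  have hs' : ∀ i, s i ∈ nbr X x := by
    unfold Dom at hs
    exact Fintype.mem_piFinset.mp (Finset.mem_filter.mp hs).1
  unfold cx
  rw [hFS1 m s fun i => In X x (v i)]
  unfold cupW
  refine Finset.prod_congr rfl fun i _ => ?_
  rw [hI_In (hs' i), hI_In (hs' i)]

end MP8a95ee.Npc.GCWFP
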