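import Pool.Agent.Work.MP_8a95ee_gt.Fg.Stmts

/-!
# DUA: duality
-/

set_option autoImplicit false

namespace MP8a95ee.Npc.GDUAP

open Classical

theorem prf : S_DUA := by
  intro S K m f hf
  let C : Submodule ℝ (RA.Ch S (m + 1)) := Finsupp.supported ℝ ℝ {T | K (m + 1) T}
  let A : C →ₗ[ℝ] RA.Ch S m := RA.bdT.comp C.subtype
  let φ : Module.Dual ℝ C := (Finsupp.linearCombination ℝ f).comp C.subtype
  have hφ : φ ∈ (LinearMap.ker A).dualAnnihilator := by
    rw [Submodule.mem_dualAnnihilator]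
    intro w hw
    refine hf w.1 (fun T hT => ?_) (LinearMap.mem_ker.1 hw)
    exact (Finsupp.mem_supported ℝ w.1).1 w.2 hT
  have hr : φ ∈ LinearMap.range A.dualMap :=
    (LinearMap.range_dualMap_eq_dualAnnihilator_ker (K := ℝ) (V₁ := C) (V₂ := RA.Ch S m)
      A).symm ▸ hφ
  obtain ⟨g, hg⟩ := hr
  refine ⟨fun U => g (Finsupp.single U 1), fun T hT => ?_⟩
  have hmem : Finsupp.single T (1 : ℝ) ∈ C := Finsupp.single_mem_supported ℝ 1 hT
  have h1 := LinearMap.congr_fun hg ⟨_, hmem⟩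
  have h2 : φ ⟨_, hmem⟩ = f T := by
    simp [φ]
  have h3 : A.dualMap g ⟨_, hmem⟩ = g (RA.bdT0 T) := by
    simp [A, RA.bdT, LinearMap.dualMap_apply]
  rw [h2, h3] at h1
  rw [← h1, RA.bdT0, RA.dl, map_sum]
  refine Finset.sum_congr rfl fun j _ => ?_
  rw [smul_eq_mul, ← smul_eq_mul, ← map_smul, Finsupp.smul_single, smul_eq_mul, mul_one]

end MP8a95ee.Npc.GDUAP
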