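import Pool.Agent.Work.MP_8a95ee_gt.Fg.Stmts

set_option autoImplicit false

namespace MP8a95ee.Npc.GETAP

open Classical

/-- the antisymmetric comparison function -/
noncomputable def cmp' {k : ℕ} (s : Fin k → ℕ) (i j : Fin k) : ℝ :=
  if s i < s j then 1 else if s j < s i then -1 else 0

lemma cmp'_anti {k : ℕ} (s : Fin k → ℕ) (i j : Fin k) : cmp' s i j = - cmp' s j i := by
  unfold cmp'
  rcases lt_trichotomy (s i) (s j) with h | h | h
  · simp [h, not_lt.mpr h.le]
  · simp [h]
  · simp [h, not_lt.mpr h.le]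

lemma sgT_eq {k : ℕ} (s : Fin k → ℕ) (hs : Function.Injective s) :
    sgT s = ∏ j, ∏ i ∈ Finset.Iio j, cmp' s i j := by
  unfold sgT
  rw [Finset.prod_sigma']
  refine Finset.prod_bij' (fun p _ => (⟨p.2, p.1⟩ : (_ : Fin k) × Fin k)) (fun p _ => (p.2, p.1))
    ?_ ?_ ?_ ?_ ?_
  · intro p hp
    simpa using hp
  · intro p hp
    simpa using hp
  · intro p hp
    rfl
  · intro p hp
    rfl
  · intro p hp
    simp only [Finset.mem_filter, Finset.mem_univ, true_and] at hp
    unfold cmp'
    rcases lt_trichotomy (s p.1) (s p.2) with h | h | h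
    · simp [h]
    · exact absurd (hs h) (ne_of_lt hp)
    · simp [h, not_lt.mpr h.le]

lemma sgT_comp {k : ℕ} (s : Fin k → ℕ) (hs : Function.Injective s) (σ : Equiv.Perm (Fin k)) :
    sgT (s ∘ σ) = (σ.sign : ℝ) * sgT s := by
  rw [sgT_eq _ (hs.comp σ.injective), sgT_eq _ hs,
    ← Equiv.Perm.prod_Iio_comp_eq_sign_mul_prod σ (cmp'_anti s)]
  rfl

lemma sgT_swap {k : ℕ} (s : Fin k → ℕ) (hs : Function.Injective s) (a b : Fin k) (hab : a ≠ b) :
    sgT (s ∘ Equiv.swap a b) = - sgT s := by
  rw [sgT_comp s hs, Equiv.Perm.sign_swap hab]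
  simp

lemma flT_swap {k : ℕ} (s : Fin (k + 1) → ℕ) (i : Fin k) (j : Fin (k + 1))
    (hj : j ≠ i.castSucc) : flT (s ∘ Equiv.swap i.castSucc i.succ) j = flT s j := by
  unfold flT
  have hne : j.val ≠ i.val := fun h => hj (Fin.ext h)
  have key : ∀ t : Fin (k + 1), t ≤ j → Equiv.swap i.castSucc i.succ t ≤ j := by
    intro t ht
    rw [Fin.le_def] at ht ⊢
    rcases eq_or_ne t i.castSucc with h | h
    · subst h
      rw [Equiv.swap_apply_left]
      simp only [Fin.val_succ, Fin.val_castSucc] at ht ⊢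
      omega
    · rcases eq_or_ne t i.succ with h' | h'
      · subst h'
        rw [Equiv.swap_apply_right]
        simp only [Fin.val_succ, Fin.val_castSucc] at ht ⊢
        omega
      · rw [Equiv.swap_apply_of_ne_of_ne h h']
        exact ht
  ext x
  simp only [Finset.mem_image, Finset.mem_filter, Finset.mem_univ, true_and, Function.comp_apply]
  constructor
  · rintro ⟨t, ht, rfl⟩
    exact ⟨_, key t ht, rfl⟩
  · rintro ⟨t, ht, rfl⟩
    exact ⟨_, key t ht, by rw [Equiv.swap_apply_self]⟩

lemma flT_snoc {k : ℕ} (s : Fin k → ℕ) (a : ℕ) (j : Fin k) :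
    flT (Fin.snoc (α := fun _ => ℕ) s a) j.castSucc = flT s j := by
  unfold flT
  ext x
  simp only [Finset.mem_image, Finset.mem_filter, Finset.mem_univ, true_and]
  constructor
  · rintro ⟨t, ht, rfl⟩
    have hlt : t.val < k := by
      rw [Fin.le_def] at ht
      simp only [Fin.val_castSucc] at ht
      have := j.isLt
      omega
    refine ⟨⟨t.val, hlt⟩, ?_, ?_⟩
    · rw [Fin.le_def] at ht ⊢
      simpa using ht
    · exact (Fin.snoc_castSucc (α := fun _ => ℕ) a s (⟨t.val, hlt⟩ : Fin k)).symm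
  · rintro ⟨t, ht, rfl⟩
    exact ⟨t.castSucc, by simpa using ht, by rw [Fin.snoc_castSucc]⟩

lemma sgT_snoc {k : ℕ} (s : Fin k → ℕ) (hs : Function.Injective s) (a : ℕ)
    (ha : a ∉ Finset.univ.image s) :
    sgT (Fin.snoc (α := fun _ => ℕ) s a) * (-1 : ℝ) ^ k = sgT s * RA.sg a (Finset.univ.image s) := by
  have hinj : Function.Injective (Fin.snoc (α := fun _ => ℕ) s a) := by
    rw [Fin.snoc_injective_iff]
    refine ⟨hs, ?_⟩
    simpa using ha
  rw [sgT_eq _ hinj, sgT_eq _ hs, Fin.prod_univ_castSucc]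
  have h1 : ∀ j : Fin k, (∏ i ∈ Finset.Iio j.castSucc,
      cmp' (Fin.snoc (α := fun _ => ℕ) s a) i j.castSucc) = ∏ i ∈ Finset.Iio j, cmp' s i j := by
    intro j
    rw [← Fin.map_castSuccEmb_Iio, Finset.prod_map]
    refine Finset.prod_congr rfl fun i _ => ?_
    simp [cmp']
  have h2 : (∏ i ∈ Finset.Iio (Fin.last k), cmp' (Fin.snoc (α := fun _ => ℕ) s a) i (Fin.last k)) *
      (-1 : ℝ) ^ k = RA.sg a (Finset.univ.image s) := by
    have h3 : Finset.Iio (Fin.last k) = Finset.univ.map Fin.castSuccEmb := by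
      ext x
      simp only [Finset.mem_Iio, Finset.mem_map, Finset.mem_univ, true_and, Fin.coe_castSuccEmb]
      constructor
      · intro h
        exact ⟨⟨x.val, h⟩, Fin.ext rfl⟩
      · rintro ⟨y, rfl⟩
        exact Fin.castSucc_lt_last y
    rw [h3, Finset.prod_map]
    have h4 : (-1 : ℝ) ^ k = ∏ _i : Fin k, (-1 : ℝ) := by simp
    rw [h4, ← Finset.prod_mul_distrib]
    unfold RA.sg
    rw [Finset.filter_image, Finset.card_image_of_injective _ hs, ← Finset.prod_const,
      Finset.prod_filter]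
    refine Finset.prod_congr rfl fun i _ => ?_
    have hne : s i ≠ a := fun h => ha (by rw [← h]; exact Finset.mem_image_of_mem _ (Finset.mem_univ _))
    rcases lt_or_gt_of_ne hne with h | h
    · simp [cmp', h]
    · simp [cmp', h, not_lt.mpr h.le]
  rw [Finset.prod_congr rfl fun j _ => h1 j, mul_assoc, h2]

lemma sum_snoc {M : Type*} [AddCommMonoid M] (L : Finset (Finset ℕ)) (k : ℕ)
    (f : (Fin (k + 1) → ℕ) → M) :
    ∑ s ∈ (Fintype.piFinset fun _ : Fin (k + 1) => verts L).filter Function.Injective, f s =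
    ∑ s ∈ (Fintype.piFinset fun _ : Fin k => verts L).filter Function.Injective,
      ∑ a ∈ verts L \ Finset.univ.image s, f (Fin.snoc (α := fun _ => ℕ) s a) := by
  rw [Finset.sum_sigma']
  refine Finset.sum_bij' (fun s _ => (⟨Fin.init s, s (Fin.last k)⟩ : (_ : Fin k → ℕ) × ℕ))
    (fun p _ => Fin.snoc (α := fun _ => ℕ) p.1 p.2) ?_ ?_ ?_ ?_ ?_
  · intro s hs
    simp only [Finset.mem_filter, Fintype.mem_piFinset] at hs
    simp only [Finset.mem_sigma, Finset.mem_filter, Fintype.mem_piFinset, Finset.mem_sdiff,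
      Finset.mem_image, Finset.mem_univ, true_and, not_exists]
    refine ⟨⟨fun i => hs.1 _, fun i j hij => Fin.castSucc_injective _ (hs.2 hij)⟩, hs.1 _, ?_⟩
    intro i hi
    exact absurd (hs.2 hi) (Fin.castSucc_lt_last i).ne
  · intro p hp
    simp only [Finset.mem_sigma, Finset.mem_filter, Fintype.mem_piFinset, Finset.mem_sdiff] at hp
    simp only [Finset.mem_filter, Fintype.mem_piFinset]
    refine ⟨?_, ?_⟩
    · intro i
      refine Fin.lastCases ?_ (fun i => ?_) i
      · rw [Fin.snoc_last]; exact hp.2.1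
      · rw [Fin.snoc_castSucc]; exact hp.1.1 i
    · rw [Fin.snoc_injective_iff]
      refine ⟨hp.1.2, ?_⟩
      simpa using hp.2.2
  · intro s hs
    exact Fin.snoc_init_self s
  · rintro ⟨s, a⟩ hp
    simp
  · intro s hs
    rw [Fin.snoc_init_self]

theorem prf : S_ETA := by
  intro L k c
  have hL : RA.bdT (eta L (k + 1) c) =
      ∑ s ∈ (Fintype.piFinset fun _ : Fin (k + 1) => verts L).filter Function.Injective,
        ∑ i : Fin (k + 1), Finsupp.single (fun j : Fin k => flT s (i.succAbove j))
          (sgT s * c (Finset.univ.image s) * (-1 : ℝ) ^ (i : ℕ)) := by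
    unfold eta
    rw [map_sum]
    refine Finset.sum_congr rfl fun s _ => ?_
    unfold RA.bdT
    rw [Finsupp.linearCombination_single]
    unfold RA.bdT0
    rw [Finset.smul_sum]
    refine Finset.sum_congr rfl fun i _ => ?_
    rw [Finsupp.smul_single, smul_eq_mul]
  rw [hL, Finset.sum_comm, Fin.sum_univ_castSucc]
  have hz : ∀ i : Fin k,
      (∑ s ∈ (Fintype.piFinset fun _ : Fin (k + 1) => verts L).filter Function.Injective,
        Finsupp.single (fun j : Fin k => flT s (i.castSucc.succAbove j))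
          (sgT s * c (Finset.univ.image s) * (-1 : ℝ) ^ (i.castSucc : ℕ))) = 0 := by
    intro i
    have hab : i.castSucc ≠ i.succ := (Fin.castSucc_lt_succ).ne
    refine Finset.sum_involution (fun s _ => s ∘ Equiv.swap i.castSucc i.succ) ?_ ?_ ?_ ?_
    · intro s hs
      simp only [Finset.mem_filter, Fintype.mem_piFinset] at hs
      have h1 : (fun j : Fin k => flT (s ∘ Equiv.swap i.castSucc i.succ) (i.castSucc.succAbove j)) =
          fun j : Fin k => flT s (i.castSucc.succAbove j) :=
        funext fun j => flT_swap s i _ (Fin.succAbove_ne _ _)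
      have h2 : Finset.univ.image (s ∘ Equiv.swap i.castSucc i.succ) = Finset.univ.image s := by
        rw [← Finset.image_image]
        congr 1
        exact Finset.image_univ_equiv _
      rw [h1, h2, sgT_swap s hs.2 _ _ hab, ← Finsupp.single_add]
      have : sgT s * c (Finset.univ.image s) * (-1 : ℝ) ^ (i.castSucc : ℕ) +
          -sgT s * c (Finset.univ.image s) * (-1 : ℝ) ^ (i.castSucc : ℕ) = 0 := by ring
      rw [this, Finsupp.single_zero]
    · intro s hs _ heq
      simp only [Finset.mem_filter, Fintype.mem_piFinset] at hs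
      have := congrFun heq i.castSucc
      simp only [Function.comp_apply, Equiv.swap_apply_left] at this
      exact hab (hs.2 this).symm
    · intro s hs
      simp only [Finset.mem_filter, Fintype.mem_piFinset] at hs ⊢
      exact ⟨fun j => hs.1 _, hs.2.comp (Equiv.injective _)⟩
    · intro s hs
      funext j
      simp
  rw [Finset.sum_eq_zero fun i _ => hz i, zero_add, sum_snoc]
  unfold eta
  refine Finset.sum_congr rfl fun s hs => ?_
  simp only [Finset.mem_filter, Fintype.mem_piFinset] at hs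
  have h3 : Finsupp.single (flT s) (sgT s * RA.bdS L c (Finset.univ.image s)) =
      ∑ a ∈ verts L \ Finset.univ.image s, Finsupp.single (flT s)
        (sgT s * (RA.sg a (Finset.univ.image s) * c (insert a (Finset.univ.image s)))) := by
    unfold RA.bdS
    rw [Finset.mul_sum, ← Finsupp.single_finsetSum]
  rw [h3]
  refine Finset.sum_congr rfl fun a ha => ?_
  have ha' : a ∉ Finset.univ.image s := (Finset.mem_sdiff.mp ha).2
  have h4 : (fun j : Fin k => flT (Fin.snoc (α := fun _ => ℕ) s a) ((Fin.last k).succAbove j)) =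
      flT s := by
    funext j
    rw [Fin.succAbove_last]
    exact flT_snoc s a j
  have h5 : Finset.univ.image (Fin.snoc (α := fun _ => ℕ) s a) = insert a (Finset.univ.image s) := by
    ext x
    simp only [Finset.mem_image, Finset.mem_univ, true_and, Finset.mem_insert]
    constructor
    · rintro ⟨t, rfl⟩
      refine Fin.lastCases ?_ (fun i => ?_) t
      · left; rw [Fin.snoc_last]
      · right; exact ⟨i, by rw [Fin.snoc_castSucc]⟩
    · rintro (rfl | ⟨t, rfl⟩)
      · exact ⟨Fin.last k, by rw [Fin.snoc_last]⟩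
      · exact ⟨t.castSucc, by rw [Fin.snoc_castSucc]⟩
  rw [h4, h5]
  congr 1
  have h6 := sgT_snoc s hs.2 a ha'
  rw [Fin.val_last]
  linear_combination (c (insert a (Finset.univ.image s))) * h6

end MP8a95ee.Npc.GETAP
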