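import Pool.Agent.Work.MP_8a95ee_gt.Fg.Stmts

/-!
# FB5: linearity of the chain map in the function
-/

set_option autoImplicit false

namespace MP8a95ee.Npc.GFB5P

open Classical

theorem supFin {G : Type} [Group G] {P : Type} [MulAction G P] {k : ℕ}
    (c : (Fin k → P) → ℝ) (hc : LFn G c) (p : Fin k → P) {T : Type} (f : G → T) :
    (Function.support fun g : G => (Finsupp.single (f g) (c fun i => g • p i) : T →₀ ℝ)).Finite := by
  refine (hc p).subset ?_
  intro g hg hz
  exact hg (by simp only at hz ⊢; rw [hz, Finsupp.single_zero])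

theorem fibLin (Γ : Subgroup (Equiv.Perm ℕ)) {A B : Type} [TopologicalSpace A]
    [TopologicalSpace B] [MulAction Γ A] [ContinuousConstSMul Γ A] (π : C(A, B)) (ρ : A → ℕ)
    {k b N : ℕ} (h : N = k + b) (c c' : (Fin (k + 1) → ℕ) → ℝ) (hc : LFn Γ c) (hc' : LFn Γ c')
    (u u' : ℝ) (σ : SSimplex B N) :
    fibS Γ π ρ h (fun v => u * c v + u' * c' v) σ =
      u • fibS Γ π ρ h c σ + u' • fibS Γ π ρ h c' σ := by
  unfold fibS
  by_cases hσ : ∃ τ : SSimplex A N, π.comp τ = σ
  · simp only [dif_pos hσ]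
    have h1 := supFin c hc (fun i : Fin (k + 1) => ρ (hσ.choose (vtx ⟨i, by omega⟩)))
      (fun g : Γ => bkS h (actS g hσ.choose))
    have h2 := supFin c' hc' (fun i : Fin (k + 1) => ρ (hσ.choose (vtx ⟨i, by omega⟩)))
      (fun g : Γ => bkS h (actS g hσ.choose))
    rw [smul_finsum' u h1, smul_finsum' u' h2, ← finsum_add_distrib]
    · refine finsum_congr fun g => ?_
      rw [Finsupp.smul_single, Finsupp.smul_single, ← Finsupp.single_add, smul_eq_mul, smul_eq_mul]
    · refine h1.subset ?_
      intro g hg hz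
      exact hg (by simp only at hz ⊢; rw [hz, smul_zero])
    · refine h2.subset ?_
      intro g hg hz
      exact hg (by simp only at hz ⊢; rw [hz, smul_zero])
  · simp only [dif_neg hσ, smul_zero, add_zero]

theorem prf : S_FB5 := by
  intro Γ A B _ _ _ _ π ρ _ k b N h c c' hc hc' u u' w
  unfold FbL
  rw [Finsupp.linearCombination_apply, Finsupp.linearCombination_apply,
    Finsupp.linearCombination_apply, Finsupp.smul_sum, Finsupp.smul_sum, ← Finsupp.sum_add]
  refine Finsupp.sum_congr fun σ _ => ?_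
  rw [fibLin Γ π ρ h c c' hc hc' u u' σ, smul_add, smul_comm (w σ) u, smul_comm (w σ) u']

end MP8a95ee.Npc.GFB5P
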