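import Pool.Agent.Work.MP_8a95ee_gt.Fg.Stmts

/-!
# Item FB6: the value of the chain map on the image of a chain of `A`
-/

set_option autoImplicit false

namespace MP8a95ee.Npc.GFB6P

open Classical

theorem prf (h1 : S_FB1) : S_FB6 := by
  intro Γ A B _ _ _ _ π hπ ρ hρ k b N h c hc z
  have e1 : FbL Γ π ρ h c (push π z) = z.sum fun τ r => r • fibS Γ π ρ h c (π.comp τ) := by
    unfold FbL push
    rw [Finsupp.linearCombination_mapDomain, Finsupp.linearCombination_apply]
    rfl
  rw [e1]
  refine Finsupp.sum_congr fun τ _ => ?_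
  rw [h1 Γ A B π hπ ρ hρ k b N h c hc τ, smul_finsum]
  refine finsum_congr fun g => ?_
  rw [Finsupp.smul_single, smul_eq_mul]

end MP8a95ee.Npc.GFB6P
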