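import Pool.Agent.Work.MP_8a95ee_gt.Fg.Stmts

/-!
# FLW: change of the corner of the cochain of a cube
-/

set_option autoImplicit false

namespace MP8a95ee.Npc.GFLWP

open Classical

variable {X : SimpleGraph ℕ}

theorem dom_inj {n x : ℕ} {s : Fin n → ℕ} (h : s ∈ Dom X n x) :
    Function.Injective s ∧ Finset.univ.image s ∈ link X x := by
  unfold Dom at h
  exact (Finset.mem_filter.1 h).2

/-- the directions at the neighbour `s 0` -/
theorem dirs (h1 : S_CU1) (hX : IsMedianGraph X) (hL : LocFin X) {m v : ℕ}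
    {s : Fin (m + 1) → ℕ} (hs : s ∈ Dom X (m + 1) v) :
    (fun j : Fin (m + 1) => if j = 0 then v else corner X v {s 0, s j}) =
      fun j => rb X v {s 0} (s j) := by
  obtain ⟨hinj, hlk⟩ := dom_inj hs
  funext j
  unfold rb
  by_cases hj : j = 0
  · subst hj
    rw [if_pos rfl, symmDiff_self, Finset.bot_eq_empty, (h1 X hX hL v _ hlk).1]
  · rw [if_neg hj]
    congr 1
    have hne : s 0 ≠ s j := fun e => hj (hinj e).symm
    ext a
    rw [Finset.mem_insert, Finset.mem_singleton, Finset.mem_symmDiff, Finset.mem_singleton,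
      Finset.mem_singleton]
    constructor
    · rintro (rfl | rfl)
      · exact Or.inl ⟨rfl, hne⟩
      · exact Or.inr ⟨rfl, hne.symm⟩
    · rintro (h | h)
      · exact Or.inl h.1
      · exact Or.inr h.1

/-- the tuple at the neighbour is a tuple of directions -/
theorem dom_rb (h1 : S_CU1) (h3 : S_CU3) (hX : IsMedianGraph X) (hL : LocFin X) {m v : ℕ}
    {s : Fin (m + 1) → ℕ} (hs : s ∈ Dom X (m + 1) v) :
    (fun j => rb X v {s 0} (s j)) ∈ Dom X (m + 1) (s 0) := by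
  obtain ⟨hinj, hlk⟩ := dom_inj hs
  have h0 : s 0 ∈ Finset.univ.image s := Finset.mem_image_of_mem _ (Finset.mem_univ _)
  have hT : ({s 0} : Finset ℕ) ⊆ Finset.univ.image s := Finset.singleton_subset_iff.2 h0
  have c1 := h1 X hX hL v _ hlk
  have hl := (h3 X hX hL v _ hlk {s 0} hT).1
  rw [c1.2.1 _ h0, Finset.image_image] at hl
  have hl' : Finset.univ.image (fun j => rb X v {s 0} (s j)) ∈ link X (s 0) := hl
  unfold Dom
  rw [Finset.mem_filter, Fintype.mem_piFinset]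
  refine ⟨fun i => (mem_link.1 hl').1 (Finset.mem_image_of_mem _ (Finset.mem_univ _)), ?_, hl'⟩
  intro i j hij
  exact hinj (c1.2.2.2.1 {s 0} hT (s i) (Finset.mem_image_of_mem _ (Finset.mem_univ _)) (s j)
    (Finset.mem_image_of_mem _ (Finset.mem_univ _)) hij)

/-- sides of walls in terms of separation -/
theorem wall_eq (hWA2 : S_WA2) (hX : IsMedianGraph X) (D : WS X) {x a : ℕ} (hxa : X.Adj x a)
    (y : ℕ) : wall X x a y = if D.Sep (D.wall x a) x y then 1 else 0 := by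
  have h := (hWA2 X hX D).1 x a y hxa
  unfold wall
  by_cases hy : X.dist a y < X.dist x y
  · rw [if_pos hy, if_pos (h.1 hy)]
  · rw [if_neg hy, if_neg fun h' => hy (h.2 h')]

/-- the edge in the other direction -/
theorem wall_flip (hWA2 : S_WA2) (hX : IsMedianGraph X) (D : WS X) {x a : ℕ} (hxa : X.Adj x a)
    (y : ℕ) : wall X a x y = 1 - wall X x a y := by
  rw [wall_eq hWA2 hX D hxa, wall_eq hWA2 hX D hxa.symm, ← D.wall_comm hxa]
  have h1 : D.Sep (D.wall x a) x a := (D.Sep_step hxa).2 rfl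
  have h2 : D.Sep (D.wall x a) x y ↔ ¬ (D.Sep (D.wall x a) x a ↔ D.Sep (D.wall x a) a y) :=
    D.Sep_trans
  by_cases hy : D.Sep (D.wall x a) a y
  · have h3 : ¬ D.Sep (D.wall x a) x y := fun h => h2.1 h ⟨fun _ => hy, fun _ => h1⟩
    rw [if_pos hy, if_neg h3, sub_zero]
  · have h3 : D.Sep (D.wall x a) x y := h2.2 fun h => hy (h.1 h1)
    rw [if_neg hy, if_pos h3, sub_self]

/-- parallel edges of a square -/
theorem wall_par (hWA2 : S_WA2) (h1 : S_CU1) (hX : IsMedianGraph X) (hL : LocFin X) (D : WS X)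
    {m x : ℕ} {s : Fin (m + 1) → ℕ} (hs : s ∈ Dom X (m + 1) x) {i : Fin (m + 1)} (hi : i ≠ 0)
    (y : ℕ) : wall X (s 0) (rb X x {s 0} (s i)) y = wall X x (s i) y := by
  obtain ⟨hinj, hlk⟩ := dom_inj hs
  have h0 : s 0 ∈ Finset.univ.image s := Finset.mem_image_of_mem _ (Finset.mem_univ _)
  have hi' : s i ∈ Finset.univ.image s := Finset.mem_image_of_mem _ (Finset.mem_univ _)
  have hT : ({s 0} : Finset ℕ) ⊆ Finset.univ.image s := Finset.singleton_subset_iff.2 h0
  have c1 := h1 X hX hL x _ hlk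
  have hadj0 : X.Adj x (s 0) := (mem_nbr hL).1 ((mem_link.1 hlk).1 h0)
  have hadji : X.Adj x (s i) := (mem_nbr hL).1 ((mem_link.1 hlk).1 hi')
  have hadj : X.Adj (s 0) (rb X x {s 0} (s i)) := by
    have h := c1.2.2.2.2.1 {s 0} hT (s i) hi'
    rwa [c1.2.1 _ h0] at h
  have hw : D.wall (s 0) (rb X x {s 0} (s i)) = D.wall x (s i) := by
    have h := c1.2.2.2.2.2 D {s 0} hT (s i) hi'
    rwa [c1.2.1 _ h0] at h
  rw [wall_eq hWA2 hX D hadj, wall_eq hWA2 hX D hadji, hw]
  have hns : ¬ D.Sep (D.wall x (s i)) x (s 0) := by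
    intro h
    exact hi (hinj ((hWA2 X hX D).2.2 x (s i) (s 0) hadji hadj0 ((D.Sep_step hadj0).1 h)))
  have h2 : D.Sep (D.wall x (s i)) x y ↔
      ¬ (D.Sep (D.wall x (s i)) x (s 0) ↔ D.Sep (D.wall x (s i)) (s 0) y) := D.Sep_trans
  have h3 : D.Sep (D.wall x (s i)) (s 0) y ↔ D.Sep (D.wall x (s i)) x y := by
    constructor
    · intro h
      exact h2.2 fun e => hns (e.2 h)
    · intro h
      by_contra hn
      exact h2.1 h ⟨fun a => absurd a hns, fun a => absurd a hn⟩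
  by_cases hy : D.Sep (D.wall x (s i)) x y
  · rw [if_pos hy, if_pos (h3.2 hy)]
  · rw [if_neg hy, if_neg fun h' => hy (h3.1 h')]

theorem prf (hMG5 : S_MG5) (hWA2 : S_WA2) (hCU1 : S_CU1) (hCU3 : S_CU3) : S_FLW := by
  intro X hX hL m x s hs v
  rw [dirs hCU1 hX hL hs]
  refine ⟨dom_rb hCU1 hCU3 hX hL hs, ?_⟩
  obtain ⟨D⟩ := hMG5 X hX
  obtain ⟨hinj, hlk⟩ := dom_inj hs
  have h0 : s 0 ∈ Finset.univ.image s := Finset.mem_image_of_mem _ (Finset.mem_univ _)
  have hadj0 : X.Adj x (s 0) := (mem_nbr hL).1 ((mem_link.1 hlk).1 h0)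
  have e0 : (fun j => rb X x {s 0} (s j)) 0 = x := by
    show rb X x {s 0} (s 0) = x
    unfold rb
    rw [symmDiff_self, Finset.bot_eq_empty, (hCU1 X hX hL x _ hlk).1]
  unfold cupW
  rw [Fin.prod_univ_succ, Fin.prod_univ_succ
    (fun i : Fin (m + 1) => wall X x (s i) (v i.succ) - wall X x (s i) (v i.castSucc))]
  have hr : ∏ i : Fin m, (wall X (s 0) (rb X x {s 0} (s i.succ)) (v i.succ.succ) -
      wall X (s 0) (rb X x {s 0} (s i.succ)) (v i.succ.castSucc)) =
      ∏ i : Fin m, (wall X x (s i.succ) (v i.succ.succ) -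
        wall X x (s i.succ) (v i.succ.castSucc)) := by
    refine Finset.prod_congr rfl fun i _ => ?_
    rw [wall_par hWA2 hCU1 hX hL D hs (Fin.succ_ne_zero i),
      wall_par hWA2 hCU1 hX hL D hs (Fin.succ_ne_zero i)]
  rw [hr, e0, wall_flip hWA2 hX D hadj0, wall_flip hWA2 hX D hadj0]
  ring

end MP8a95ee.Npc.GFLWP
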