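import Pool.Agent.Work.MP_8a95ee_gt.Fg.Stmts

/-!
# FS1: the coboundary of the local function of a facet
-/

set_option autoImplicit false

namespace MP8a95ee.Npc.GFS1P

open Classical MP8a95ee.RA

theorem dl_dl' {S : Type} {n : ℕ} (f : (Fin n → S) → ℝ) (T : Fin (n + 2) → S) :
    dl (dl f) T = 0 := by
  unfold dl
  simp only [Finset.smul_sum]
  rw [← Finset.sum_product' (Finset.univ : Finset (Fin (n + 2)))
    (Finset.univ : Finset (Fin (n + 1)))
    (fun i j => (-1 : ℝ) ^ (i : ℕ) • ((-1 : ℝ) ^ (j : ℕ) •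
      f (fun k => T (i.succAbove (j.succAbove k)))))]
  refine Finset.sum_involution (fun p _ => (p.1.succAbove p.2, p.2.predAbove p.1)) ?_ ?_ ?_ ?_
  · rintro ⟨i, j⟩ _
    simp only [Fin.succAbove_succAbove_succAbove_predAbove]
    have h := Fin.neg_one_pow_succAbove_add_predAbove (R := ℝ) i j
    rw [smul_smul, smul_smul, ← pow_add, ← pow_add, h, ← add_smul]
    rw [add_neg_cancel, zero_smul]
  · rintro ⟨i, j⟩ _ _ h
    exact Fin.succAbove_ne i j (Prod.ext_iff.1 h).1
  · intro _ _
    exact Finset.mem_univ _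
  · rintro ⟨i, j⟩ _
    exact Prod.ext (Fin.succAbove_succAbove_predAbove _ _) (Fin.predAbove_predAbove_succAbove _ _)

/-- product of the differences -/
noncomputable def ga {S : Type} {n : ℕ} (h : Fin n → S → ℝ) (T : Fin (n + 1) → S) : ℝ :=
  ∏ i : Fin n, (h i (T i.succ) - h i (T i.castSucc))

/-- its primitive -/
noncomputable def fa {S : Type} {n : ℕ} (h : Fin (n + 1) → S → ℝ) (T : Fin (n + 1) → S) : ℝ :=
  h 0 (T 0) * ga (fun i : Fin n => h i.succ) T

theorem dl_fa_of {S : Type} {n : ℕ} (h : Fin (n + 1) → S → ℝ)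
    (H : ∀ T : Fin (n + 2) → S, dl (ga (fun i : Fin n => h i.succ)) T = 0)
    (T : Fin (n + 2) → S) : dl (fa h) T = ga h T := by
  have h1 := H T
  unfold dl at h1
  rw [Fin.sum_univ_succ] at h1
  unfold dl
  rw [Fin.sum_univ_succ]
  have h2 : ∀ i : Fin (n + 1), (-1 : ℝ) ^ ((i.succ : Fin (n + 2)) : ℕ) •
      fa h (fun j => T (i.succ.succAbove j)) =
      h 0 (T 0) * ((-1 : ℝ) ^ ((i.succ : Fin (n + 2)) : ℕ) •
        ga (fun i : Fin n => h i.succ) (fun j => T (i.succ.succAbove j))) := by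
    intro i
    have h5 : T (i.succ.succAbove 0) = T 0 := by rw [Fin.succ_succAbove_zero]
    unfold fa
    dsimp only
    rw [h5]
    simp only [smul_eq_mul]
    ring
  rw [Finset.sum_congr rfl fun i _ => h2 i, ← Finset.mul_sum]
  have h3 : fa h (fun j => T ((0 : Fin (n + 2)).succAbove j)) =
      h 0 (T 1) * ga (fun i : Fin n => h i.succ) (fun j => T ((0 : Fin (n + 2)).succAbove j)) := by
    unfold fa
    rw [Fin.succAbove_zero]
    rfl
  have h4 : ga h T = (h 0 (T 1) - h 0 (T 0)) *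
      ga (fun i : Fin n => h i.succ) (fun j => T ((0 : Fin (n + 2)).succAbove j)) := by
    unfold ga
    rw [Fin.prod_univ_succ]
    simp only [Fin.succAbove_zero]
    rfl
  rw [h3, h4]
  simp only [Fin.val_zero, pow_zero, one_smul] at h1 ⊢
  linear_combination (h 0 (T 0)) * h1

theorem dl_ga {S : Type} : ∀ (n : ℕ) (h : Fin n → S → ℝ) (T : Fin (n + 2) → S),
    dl (ga h) T = 0 := by
  intro n
  induction n with
  | zero =>
    intro h T
    unfold dl
    rw [Fin.sum_univ_two]
    simp [ga]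
  | succ n ih =>
    intro h T
    have h1 : ga h = dl (fa h) := by
      funext U
      exact (dl_fa_of h (fun T => ih _ T) U).symm
    rw [h1]
    exact dl_dl' _ _

theorem prf : S_FS1 := by
  intro m s T
  have h1 := dl_fa_of (fun i : Fin (m + 1) => hI (s i)) (fun T => dl_ga m _ T) T
  exact h1

end MP8a95ee.Npc.GFS1P
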