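import Pool.Agent.Work.MP_8a95ee_gt.Fg.Stmts

/-!
# FS2: the coboundary of the local function of a facet vanishes on tuples with a common vertex
-/

set_option autoImplicit false

namespace MP8a95ee.Npc.GFS2P

open Classical

theorem prf (h1 : S_FS1) : S_FS2 := by
  intro L hL m hd s hs hsL T hT
  rw [h1 m s T]
  obtain ⟨hT1, u, hu⟩ := hT
  by_contra hne
  have hfac : ∀ i, hI (s i) (T i.succ) - hI (s i) (T i.castSucc) ≠ 0 := fun i h0 =>
    hne (Finset.prod_eq_zero (Finset.mem_univ i) h0)
  have key : ∀ i, s i ≠ u ∧ ({u, s i} : Finset ℕ) ∈ L := by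
    intro i
    have h2 := hfac i
    unfold hI at h2
    by_cases ha : s i ∈ T i.succ <;> by_cases hb : s i ∈ T i.castSucc
    · simp [ha, hb] at h2
    · exact ⟨fun h => hb (h ▸ hu _), (hL (T i.succ)).1 (hT1 _).1 u (hu _) (s i) ha⟩
    · exact ⟨fun h => ha (h ▸ hu _), (hL (T i.castSucc)).1 (hT1 _).1 u (hu _) (s i) hb⟩
    · simp [ha, hb] at h2
  have hmem : insert u (Finset.univ.image s) ∈ L := by
    refine (hL _).2 fun x hx y hy => ?_
    rw [Finset.mem_insert] at hx hy
    rcases hx with rfl | hx <;> rcases hy with rfl | hy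
    · exact (hL (T 0)).1 (hT1 _).1 _ (hu 0) _ (hu 0)
    · obtain ⟨j, -, rfl⟩ := Finset.mem_image.1 hy
      exact (key j).2
    · obtain ⟨j, -, rfl⟩ := Finset.mem_image.1 hx
      rw [Finset.pair_comm]
      exact (key j).2
    · exact (hL _).1 hsL x hx y hy
  have hnot : u ∉ Finset.univ.image s := by
    intro h
    obtain ⟨j, -, hj⟩ := Finset.mem_image.1 h
    exact (key j).1 hj
  have hcard := hd _ hmem
  rw [Finset.card_insert_of_notMem hnot, Finset.card_image_of_injective _ hs, Finset.card_univ,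
    Fintype.card_fin] at hcard
  omega

end MP8a95ee.Npc.GFS2P
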