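import Pool.Agent.Work.MP_8a95ee_gt.Fg.Stmts

/-!
# HDT: the homology in top degree
-/

set_option autoImplicit false

namespace MP8a95ee.Npc.GHDTP

open Classical

/-- the boundary of a linear combination -/
lemma bdS_lin {S : Type} (L : Finset (Finset ℕ)) (g : S → Finset ℕ → ℝ) (z : S →₀ ℝ) :
    RA.bdS L (Finsupp.linearCombination ℝ g z) =
      Finsupp.linearCombination ℝ (fun T => RA.bdS L (g T)) z := by
  funext t
  simp only [RA.bdS, Finsupp.linearCombination_apply, Finsupp.sum, Finset.sum_apply,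
    Pi.smul_apply, smul_eq_mul, Finset.mul_sum]
  rw [Finset.sum_comm]
  refine Finset.sum_congr rfl fun T _ => Finset.sum_congr rfl fun a _ => ?_
  ring

/-- the subdivision of a linear combination -/
lemma eta_lin {S : Type} (L : Finset (Finset ℕ)) (k : ℕ) (g : S → Finset ℕ → ℝ) (z : S →₀ ℝ) :
    eta L k (Finsupp.linearCombination ℝ g z) =
      Finsupp.linearCombination ℝ (fun T => eta L k (g T)) z := by
  simp only [eta, Finsupp.linearCombination_apply, Finsupp.sum, Finset.sum_apply,
    Pi.smul_apply, smul_eq_mul, Finset.mul_sum, Finset.smul_sum, Finsupp.smul_single]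
  rw [Finset.sum_comm]
  refine Finset.sum_congr rfl fun s _ => ?_
  rw [← Finsupp.single_finsetSum]
  congr 1
  refine Finset.sum_congr rfl fun T _ => ?_
  ring

/-- the subdivision of a multiple -/
lemma eta_smul (L : Finset (Finset ℕ)) (k : ℕ) (c : Finset ℕ → ℝ) (r : ℝ) :
    eta L k (r • c) = r • eta L k c := by
  simp only [eta, Pi.smul_apply, smul_eq_mul, Finset.smul_sum, Finsupp.smul_single]
  refine Finset.sum_congr rfl fun s _ => ?_
  congr 1
  ring

/-- a sum over the faces of the tuples of a chain -/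
lemma lin_bd {S M : Type} [AddCommGroup M] [Module ℝ M] {k : ℕ} (g : (Fin k → S) → M)
    (z : RA.Ch S (k + 1)) :
    Finsupp.linearCombination ℝ g (RA.bdT z) =
      Finsupp.linearCombination ℝ (fun T : Fin (k + 1) → S =>
        ∑ j : Fin (k + 1), (-1 : ℝ) ^ (j : ℕ) • g fun i => T (j.succAbove i)) z := by
  induction z using Finsupp.induction_linear with
  | zero => simp
  | add a b ha hb => rw [map_add, map_add, map_add, ha, hb]
  | single T r =>
    simp only [RA.bdT, RA.bdT0, Finsupp.linearCombination_single, map_smul, map_sum]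

theorem prf (hH : S_HMT) (h5 : RA.S_B5) (h8 : RA.S_B8a) : S_HDT := by
  intro L hL m hS
  obtain ⟨ψ, hψ⟩ := h5 L hL
  obtain ⟨h, hh1, hh2⟩ := hH L hL ψ hψ
  have hem : (∅ : Finset ℕ) ∈ L := (hL ∅).2 (by simp)
  obtain ⟨z0, -, -, -, hz0⟩ := (hS ∅ hem).2 (m + 1) (by simp)
  refine ⟨eta L (m + 1) z0, ?_⟩
  intro z hz hbz
  set c : Finset ℕ → ℝ := Finsupp.linearCombination ℝ (ψ (m + 1)) z with hc
  have hKG : ∀ T ∈ z.support, RA.KG L (RA.TrivP L) T := fun T hT =>
    ⟨(hz T hT).1, Or.inl (hz T hT).2⟩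
  have hc1 : RA.LkChain L ∅ (m + 1) c := by
    intro t ht
    rw [hc, Finsupp.linearCombination_apply, Finsupp.sum, Finset.sum_apply] at ht
    obtain ⟨T, hT, hTt⟩ := Finset.exists_ne_zero_of_sum_ne_zero ht
    rw [Pi.smul_apply, smul_eq_mul] at hTt
    obtain ⟨a1, -, a3⟩ := hψ.2.1 (m + 1) T (hKG T hT) t (right_ne_zero_of_mul hTt)
    exact ⟨a1, Finset.disjoint_empty_left t, by rwa [Finset.empty_union], a3⟩
  have hc2 : RA.bdS L c = 0 := by
    rw [hc, bdS_lin]
    have e : Finsupp.linearCombination ℝ (fun T => RA.bdS L (ψ (m + 1) T)) z =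
        Finsupp.linearCombination ℝ (ψ m) (RA.bdT z) := by
      rw [lin_bd, Finsupp.linearCombination_apply, Finsupp.linearCombination_apply,
        Finsupp.sum, Finsupp.sum]
      refine Finset.sum_congr rfl fun T hT => ?_
      rw [hψ.2.2 m T (hKG T hT)]
    rw [e, hbz, map_zero]
  obtain ⟨lam, c', hc', ec⟩ := hz0 c hc1 hc2
  have hc0 : c' = 0 := by
    funext t
    by_contra ht
    obtain ⟨b1, -, -, b4⟩ := hc' t ht
    have := (h8 L hL (m + 1) hS t b1).1
    omega
  have hb0 : RA.bdS L c' = 0 := by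
    rw [hc0]
    funext t
    simp [RA.bdS]
  rw [hb0, add_zero] at ec
  have key : RA.bdT (Finsupp.linearCombination ℝ (h (m + 1)) z) +
      Finsupp.linearCombination ℝ (h m) (RA.bdT z) = eta L (m + 1) c - z := by
    have e1 : RA.bdT (Finsupp.linearCombination ℝ (h (m + 1)) z) =
        Finsupp.linearCombination ℝ (fun T => RA.bdT (h (m + 1) T)) z := by
      simp only [Finsupp.linearCombination_apply, Finsupp.sum, map_sum, map_smul]
    have e2 : Finsupp.linearCombination ℝ (fun T => Finsupp.single T (1 : ℝ)) z = z := by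
      simp only [Finsupp.linearCombination_apply, Finsupp.smul_single, smul_eq_mul, mul_one]
      exact Finsupp.sum_single z
    have e3 : eta L (m + 1) c - z =
        Finsupp.linearCombination ℝ (fun T => eta L (m + 1) (ψ (m + 1) T)) z -
          Finsupp.linearCombination ℝ (fun T => Finsupp.single T (1 : ℝ)) z := by
      rw [e2, hc, eta_lin]
    rw [e3, e1, lin_bd]
    simp only [Finsupp.linearCombination_apply, Finsupp.sum]
    rw [← Finset.sum_add_distrib, ← Finset.sum_sub_distrib]
    refine Finset.sum_congr rfl fun T hT => ?_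
    rw [← smul_add, hh2 m T (hz T hT), smul_sub]
  rw [hbz, map_zero, add_zero, ec, eta_smul] at key
  refine ⟨lam, - Finsupp.linearCombination ℝ (h (m + 1)) z, ?_, ?_⟩
  · intro R hR
    rw [Finsupp.support_neg, Finsupp.linearCombination_apply, Finsupp.sum] at hR
    have h1 := Finsupp.support_finsetSum hR
    rw [Finset.mem_biUnion] at h1
    obtain ⟨T, hT, hRT⟩ := h1
    exact (hh1 (m + 1) T (hz T hT) R (Finsupp.support_smul hRT)).1
  · rw [map_neg, key]
    abel

end MP8a95ee.Npc.GHDTP
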