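import Pool.Agent.Work.MP_8a95ee_gt.Fg.Stmts
import Pool.Agent.Work.MP_8a95ee_gt.R.ItemB5

/-!
# HMT: the homotopy between a tuple of faces and the subdivision of its image under `psi`

The maps are constructed by recursion on the length of the tuple: the carrier of a tuple `T` are
the tuples of nonempty faces contained in the union of the entries of `T`, with a common vertex;
it is acyclic by `S_A2` (deformation to the faces which contain a common vertex of `T`).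
-/

set_option autoImplicit false

namespace MP8a95ee.Npc.GHMTP

open Classical

theorem bdT_single {S : Type} {k : ℕ} (T : Fin (k + 1) → S) (c : ℝ) :
    RA.bdT (Finsupp.single T c) = c • RA.bdT0 T := by
  simp [RA.bdT]

theorem bdT0_eq {S : Type} {k : ℕ} (T : Fin (k + 1) → S) :
    RA.bdT0 T = ∑ i : Fin (k + 1), (-1 : ℝ) ^ (i : ℕ) •
      (Finsupp.single (fun j => T (i.succAbove j)) 1 : RA.Ch S k) := by
  unfold RA.bdT0
  refine Finset.sum_congr rfl fun i _ => ?_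
  rw [Finsupp.smul_single, smul_eq_mul, mul_one]

theorem eta_sum (L : Finset (Finset ℕ)) (k : ℕ) {ι : Type} (s : Finset ι) (r : ι → ℝ)
    (c : ι → Finset ℕ → ℝ) :
    eta L k (∑ i ∈ s, r i • c i) = ∑ i ∈ s, r i • eta L k (c i) := by
  unfold eta
  simp only [Finset.smul_sum, Finsupp.smul_single]
  rw [Finset.sum_comm]
  refine Finset.sum_congr rfl fun t _ => ?_
  rw [← Finsupp.single_finsetSum]
  congr 1
  rw [Finset.sum_apply, Finset.mul_sum]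
  refine Finset.sum_congr rfl fun i _ => ?_
  rw [Pi.smul_apply, smul_eq_mul, smul_eq_mul]
  ring

theorem eta_zero (L : Finset (Finset ℕ)) (c : Finset ℕ → ℝ) (T : Fin 0 → Finset ℕ) :
    eta L 0 c = Finsupp.single T (c ∅) := by
  unfold eta
  have h : (Fintype.piFinset fun _ : Fin 0 => verts L).filter Function.Injective
      = {fun i => i.elim0} := by
    ext s
    constructor
    · intro _
      rw [Finset.mem_singleton]
      exact Subsingleton.elim _ _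
    · intro _
      rw [Finset.mem_filter]
      exact ⟨Fintype.mem_piFinset.2 fun a => a.elim0, fun a => a.elim0⟩
  rw [h, Finset.sum_singleton]
  have h1 : sgT (fun i : Fin 0 => (i.elim0 : ℕ)) = 1 := by
    unfold sgT
    refine Finset.prod_eq_one fun p _ => ?_
    exact p.1.elim0
  have h2 : (Finset.univ : Finset (Fin 0)).image (fun i : Fin 0 => (i.elim0 : ℕ)) = ∅ := by
    simp
  rw [h1, h2, one_mul]
  congr 1
  exact Subsingleton.elim _ _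

theorem DT_comp {L : Finset (Finset ℕ)} {k l : ℕ} {T : Fin k → Finset ℕ} (h : DT L T)
    (f : Fin l → Fin k) : DT L fun j => T (f j) :=
  ⟨fun i => h.1 _, h.2.imp fun _ hu i => hu _⟩

theorem DT_KG {L : Finset (Finset ℕ)} {k : ℕ} {T : Fin k → Finset ℕ} (h : DT L T) :
    RA.KG L (RA.TrivP L) T :=
  ⟨h.1, Or.inl h.2⟩

/-- the carrier -/
def Cr (L : Finset (Finset ℕ)) (W : Finset ℕ) (k : ℕ) : Submodule ℝ (RA.Ch (Finset ℕ) k) :=
  Finsupp.supported ℝ ℝ {R : Fin k → Finset ℕ | DT L R ∧ ∀ i, R i ⊆ W}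

theorem mem_Cr (L : Finset (Finset ℕ)) (W : Finset ℕ) {k : ℕ} (z : RA.Ch (Finset ℕ) k) :
    z ∈ Cr L W k ↔ ∀ R ∈ z.support, DT L R ∧ ∀ i, R i ⊆ W := by
  unfold Cr
  rw [Finsupp.mem_supported]
  exact Iff.rfl

theorem Cr_mono (L : Finset (Finset ℕ)) {W W' : Finset ℕ} (h : W ⊆ W') {k : ℕ}
    (z : RA.Ch (Finset ℕ) k) (hz : z ∈ Cr L W k) : z ∈ Cr L W' k := by
  rw [mem_Cr] at hz ⊢
  exact fun R hR => ⟨(hz R hR).1, fun i => ((hz R hR).2 i).trans h⟩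

theorem single_Cr (L : Finset (Finset ℕ)) (W : Finset ℕ) {k : ℕ} (T : Fin k → Finset ℕ) (c : ℝ)
    (h : DT L T ∧ ∀ i, T i ⊆ W) : Finsupp.single T c ∈ Cr L W k :=
  Finsupp.single_mem_supported ℝ c h

theorem eta_Cr {L : Finset (Finset ℕ)} (hf : FlagC L) (W : Finset ℕ) (k : ℕ)
    (c : Finset ℕ → ℝ) (hc : ∀ t, c t ≠ 0 → t ∈ L ∧ t ⊆ W) :
    eta L (k + 1) c ∈ Cr L W (k + 1) := by
  unfold eta
  refine Submodule.sum_mem _ fun s _ => ?_
  by_cases h0 : c (Finset.univ.image s) = 0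
  · rw [h0, mul_zero, Finsupp.single_zero]
    exact Submodule.zero_mem _
  · obtain ⟨hL, hW⟩ := hc _ h0
    have hsub : ∀ i, flT s i ⊆ Finset.univ.image s := fun i =>
      Finset.image_subset_image (Finset.filter_subset _ _)
    have h1 : ∀ i, s 0 ∈ flT s i := fun i =>
      Finset.mem_image.2 ⟨0, Finset.mem_filter.2 ⟨Finset.mem_univ _, Fin.zero_le _⟩, rfl⟩
    refine single_Cr _ _ _ _ ⟨⟨fun i => ⟨hf.mono hL (hsub i), ⟨s 0, h1 i⟩⟩, ⟨s 0, h1⟩⟩, fun i =>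
      (hsub i).trans hW⟩

/-- the carrier is acyclic -/
theorem acyc (hA2 : RA.S_A2) {L : Finset (Finset ℕ)} (hf : FlagC L) {k : ℕ}
    (T : Fin (k + 1) → Finset ℕ) (hT : DT L T) (w : RA.Ch (Finset ℕ) (k + 1))
    (hw : w ∈ Cr L (RA.Wt T) (k + 1)) (hb : RA.bdT w = 0) :
    ∃ y : RA.Ch (Finset ℕ) (k + 2), y ∈ Cr L (RA.Wt T) (k + 2) ∧ RA.bdT y = w := by
  obtain ⟨hT1, a, ha⟩ := hT
  have haW : a ∈ RA.Wt T := RA.mem_Wt.2 ⟨0, ha 0⟩
  have hav : a ∈ verts L := by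
    unfold verts
    rw [Finset.mem_biUnion]
    exact ⟨T 0, (hT1 0).1, ha 0⟩
  have hadj : ∀ b ∈ RA.Wt T, b ≠ a → RA.Adj L b a := by
    intro b hb hne
    obtain ⟨i, hi⟩ := RA.mem_Wt.1 hb
    exact RA.adj_of_mem hf (hT1 i).1 hi (ha i) hne
  let Y : Set (Finset ℕ) → Prop := fun A =>
    (∀ R ∈ A, R ∈ L ∧ R.Nonempty ∧ R ⊆ RA.Wt T) ∧ ∃ u, ∀ R ∈ A, u ∈ R
  have hYr : ∀ (l : ℕ) (R : Fin l → Finset ℕ),
      Y (Set.range R) ↔ DT L R ∧ ∀ i, R i ⊆ RA.Wt T := by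
    intro l R
    constructor
    · rintro ⟨h1, u, hu⟩
      exact ⟨⟨fun i => ⟨(h1 _ ⟨i, rfl⟩).1, (h1 _ ⟨i, rfl⟩).2.1⟩, ⟨u, fun i => hu _ ⟨i, rfl⟩⟩⟩,
        fun i => (h1 _ ⟨i, rfl⟩).2.2⟩
    · rintro ⟨⟨h1, u, hu⟩, h2⟩
      refine ⟨?_, u, ?_⟩
      · rintro _ ⟨i, rfl⟩
        exact ⟨(h1 i).1, (h1 i).2, h2 i⟩
      · rintro _ ⟨i, rfl⟩
        exact hu i
  have key := hA2 (Finset ℕ) Y
    (fun A B hAB hB => ⟨fun R hR => hB.1 R (hAB hR), hB.2.imp fun u hu R hR => hu R (hAB hR)⟩)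
    (fun R => insert a R) id
    (by
      rintro A ⟨h1, u, hu⟩
      refine ⟨?_, u, ?_⟩
      · rintro R (hR | ⟨R', hR', rfl⟩)
        · exact h1 R hR
        · refine ⟨RA.insert_mem hf (h1 R' hR').1 hav fun b hb hne =>
            hadj b ((h1 R' hR').2.2 hb) hne, ⟨a, Finset.mem_insert_self _ _⟩,
            Finset.insert_subset haW (h1 R' hR').2.2⟩
      · rintro R (hR | ⟨R', hR', rfl⟩)
        · exact hu R hR
        · exact Finset.mem_insert_of_mem (hu R' hR'))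
    (by
      intro A hA
      rw [Set.image_id, Set.union_self]
      exact hA)
    {R | R ∈ L ∧ a ∈ R ∧ R ⊆ RA.Wt T}
    (fun A hA => ⟨fun R hR => ⟨(hA hR).1, ⟨a, (hA hR).2.1⟩, (hA hR).2.2⟩, a, fun R hR =>
      (hA hR).2.1⟩)
    ⟨T 0, (hT1 0).1, ha 0, fun b hb => RA.mem_Wt.2 ⟨0, hb⟩⟩
    (by
      rintro A ⟨h1, -⟩ R hR
      exact ⟨RA.insert_mem hf (h1 R hR).1 hav fun b hb hne =>
        hadj b ((h1 R hR).2.2 hb) hne, Finset.mem_insert_self _ _,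
        Finset.insert_subset haW (h1 R hR).2.2⟩)
    k w (fun R hR => (hYr _ R).2 ((mem_Cr L _ w).1 hw R hR)) hb
  obtain ⟨y, hy1, hy2⟩ := key
  exact ⟨y, (mem_Cr L _ y).2 fun R hR => (hYr _ R).1 (hy1 R hR), hy2⟩

/-- the support condition -/
def Car (L : Finset (Finset ℕ)) (k : ℕ)
    (h : (Fin k → Finset ℕ) → RA.Ch (Finset ℕ) (k + 1)) : Prop :=
  ∀ T : Fin k → Finset ℕ, DT L T → h T ∈ Cr L (RA.Wt T) (k + 1)

/-- the condition which makes the next step possible -/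
def Cyc (L : Finset (Finset ℕ)) (ψ : ∀ k, (Fin k → Finset ℕ) → Finset ℕ → ℝ) (k : ℕ)
    (h : (Fin k → Finset ℕ) → RA.Ch (Finset ℕ) (k + 1)) : Prop :=
  ∀ T : Fin (k + 1) → Finset ℕ, DT L T →
    RA.bdT (∑ j : Fin (k + 1), (-1 : ℝ) ^ (j : ℕ) • h (fun i => T (j.succAbove i))) =
      (∑ j : Fin (k + 1), (-1 : ℝ) ^ (j : ℕ) • eta L k (ψ k fun i => T (j.succAbove i))) -
        RA.bdT0 T

/-- one step -/
theorem step (hA2 : RA.S_A2) (hE : S_ETA) {L : Finset (Finset ℕ)} (hf : FlagC L)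
    {ψ : ∀ k, (Fin k → Finset ℕ) → Finset ℕ → ℝ} (hψ : RA.IsPsi L ψ) (k : ℕ)
    (h : (Fin k → Finset ℕ) → RA.Ch (Finset ℕ) (k + 1)) (hc : Car L k h) (hy : Cyc L ψ k h)
    (T : Fin (k + 1) → Finset ℕ) (hT : DT L T) :
    ∃ y : RA.Ch (Finset ℕ) (k + 2), y ∈ Cr L (RA.Wt T) (k + 2) ∧
      RA.bdT y = eta L (k + 1) (ψ (k + 1) T) - Finsupp.single T 1 -
        ∑ j : Fin (k + 1), (-1 : ℝ) ^ (j : ℕ) • h (fun i => T (j.succAbove i)) := by
  obtain ⟨-, hψ1, hψ2⟩ := hψ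
  refine acyc hA2 hf T hT _ ?_ ?_
  · refine Submodule.sub_mem _ (Submodule.sub_mem _ ?_ ?_) ?_
    · exact eta_Cr hf _ k _ fun t ht =>
        ⟨(hψ1 _ T (DT_KG hT) t ht).1, (hψ1 _ T (DT_KG hT) t ht).2.1⟩
    · exact single_Cr _ _ _ _ ⟨hT, fun i b hb => RA.mem_Wt.2 ⟨i, hb⟩⟩
    · refine Submodule.sum_mem _ fun j _ => Submodule.smul_mem _ _ ?_
      exact Cr_mono L (RA.Wt_comp T j.succAbove) _ (hc _ (DT_comp hT j.succAbove))
  · rw [map_sub, map_sub, hE, hψ2 k T (DT_KG hT), eta_sum, hy T hT, bdT_single, one_smul]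
    abel

/-- the step gives the condition for the next step -/
theorem cyc_succ {L : Finset (Finset ℕ)}
    {ψ : ∀ k, (Fin k → Finset ℕ) → Finset ℕ → ℝ} (k : ℕ)
    (h : (Fin k → Finset ℕ) → RA.Ch (Finset ℕ) (k + 1))
    (h' : (Fin (k + 1) → Finset ℕ) → RA.Ch (Finset ℕ) (k + 2))
    (he : ∀ T : Fin (k + 1) → Finset ℕ, DT L T →
      RA.bdT (h' T) = eta L (k + 1) (ψ (k + 1) T) - Finsupp.single T 1 -
        ∑ j : Fin (k + 1), (-1 : ℝ) ^ (j : ℕ) • h (fun i => T (j.succAbove i))) :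
    Cyc L ψ (k + 1) h' := by
  intro T hT
  rw [map_sum, bdT0_eq]
  have e : ∀ j : Fin (k + 2), RA.bdT ((-1 : ℝ) ^ (j : ℕ) • h' (fun i => T (j.succAbove i))) =
      (-1 : ℝ) ^ (j : ℕ) • eta L (k + 1) (ψ (k + 1) fun i => T (j.succAbove i)) -
      (-1 : ℝ) ^ (j : ℕ) • (Finsupp.single (fun i => T (j.succAbove i)) 1 :
        RA.Ch (Finset ℕ) (k + 1)) -
      (-1 : ℝ) ^ (j : ℕ) • ∑ l : Fin (k + 1), (-1 : ℝ) ^ (l : ℕ) •
        h (fun i => T (j.succAbove (l.succAbove i))) := by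
    intro j
    rw [map_smul, he _ (DT_comp hT j.succAbove), smul_sub, smul_sub]
  rw [Finset.sum_congr rfl fun j _ => e j, Finset.sum_sub_distrib, Finset.sum_sub_distrib,
    RA.dsum h T, sub_zero]

theorem cyc_zero {L : Finset (Finset ℕ)}
    {ψ : ∀ k, (Fin k → Finset ℕ) → Finset ℕ → ℝ} (hψ : RA.IsPsi L ψ) :
    Cyc L ψ 0 (fun _ => 0) := by
  intro T _
  rw [bdT0_eq]
  simp only [smul_zero, Finset.sum_const_zero, map_zero]
  rw [← Finset.sum_sub_distrib]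
  symm
  refine Finset.sum_eq_zero fun j _ => ?_
  rw [hψ.1, eta_zero L _ (fun i => T (j.succAbove i)), if_pos rfl, sub_self]

/-- the statement -/
theorem prf (hA2 : RA.S_A2) (hE : S_ETA) : S_HMT := by
  intro L hf ψ hψ
  have st : ∀ (k : ℕ) (h : {h : (Fin k → Finset ℕ) → RA.Ch (Finset ℕ) (k + 1) //
      Car L k h ∧ Cyc L ψ k h}), ∃ h' : (Fin (k + 1) → Finset ℕ) → RA.Ch (Finset ℕ) (k + 2),
      (Car L (k + 1) h' ∧ Cyc L ψ (k + 1) h') ∧ ∀ T : Fin (k + 1) → Finset ℕ, DT L T →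
      RA.bdT (h' T) = eta L (k + 1) (ψ (k + 1) T) - Finsupp.single T 1 -
        ∑ j : Fin (k + 1), (-1 : ℝ) ^ (j : ℕ) • h.1 (fun i => T (j.succAbove i)) := by
    rintro k ⟨h, hc, hy⟩
    have hs := step hA2 hE hf hψ k h hc hy
    choose! h' h1 h2 using hs
    exact ⟨h', ⟨h1, cyc_succ k h h' h2⟩, h2⟩
  choose F hF1 hF2 using st
  let H : ∀ k, {h : (Fin k → Finset ℕ) → RA.Ch (Finset ℕ) (k + 1) //
      Car L k h ∧ Cyc L ψ k h} := fun k =>
    Nat.rec (motive := fun k => {h : (Fin k → Finset ℕ) → RA.Ch (Finset ℕ) (k + 1) //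
      Car L k h ∧ Cyc L ψ k h}) ⟨fun _ => 0, fun _ _ => Submodule.zero_mem _, cyc_zero hψ⟩
      (fun k h => ⟨F k h, hF1 k h⟩) k
  refine ⟨fun k => (H k).1, fun k T hT => (mem_Cr _ _ _).1 ((H k).2.1 T hT), fun k T hT => ?_⟩
  have e : (H (k + 1)).1 = F k (H k) := rfl
  have e2 := hF2 k (H k) T hT
  show RA.bdT ((H (k + 1)).1 T) + _ = _
  rw [e, e2]
  abel

end MP8a95ee.Npc.GHMTP
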