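import Pool.Agent.Work.MP_8a95ee_gt.Fg.Stmts
import Pool.Agent.Work.MP_8a95ee_gt.Bd.B06
import Pool.Agent.Work.MP_8a95ee_gt.Bd.B05

/-!
# Item LR3: orientations of homology spheres with values in `{-1, 0, 1}`

The proof is the one of `itemB12` (it constructs such an orientation); no hypotheses are used.
-/

set_option autoImplicit false

namespace MP8a95ee.Npc.GLR3P

open MP8a95ee.RA MP8a95ee.RA.B12

theorem vs_le {n : ℕ} (s : Fin n → ℕ) : |vs s| ≤ 1 := by
  unfold vs
  rcases lt_trichotomy (∏ i, ∏ j ∈ Finset.Ioi i, ((s j : ℤ) - s i)) 0 with h | h | h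
  · rw [Int.sign_eq_neg_one_of_neg h]; simp
  · rw [h]; simp
  · rw [Int.sign_eq_one_of_pos h]; simp

theorem sg_le (x : SignType) : |(x : ℤ)| ≤ 1 := by
  cases x <;> simp

theorem prf : S_LR3 := by
  intro L hf m hL
  obtain ⟨z, hz, hbz, hnb, -⟩ := (hL ∅ hf.empty_mem).2 (m + 1) (by simp)
  have hzL : ∀ t, z t ≠ 0 → t ∈ L ∧ t.card = m + 1 := fun t ht =>
    ⟨(hz t ht).1, (hz t ht).2.2.2⟩
  -- `z` is not zero
  obtain ⟨t0, ht0⟩ : ∃ t, z t ≠ 0 := by
    by_contra hcon
    push Not at hcon
    refine hnb ⟨fun _ => 0, fun t ht => absurd rfl ht, ?_⟩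
    funext t
    rw [hcon t]
    simp [bdS]
  have ht0L := hzL t0 ht0
  -- across a ridge
  have hridge : ∀ t ∈ L, ∀ t' ∈ L, t.card = m + 1 → t'.card = m + 1 → (t ∩ t').card = m →
      |z t| = |z t0| → |z t'| = |z t0| := by
    intro t ht t' ht' hc hc' hi h0
    rw [← h0]
    set r := t ∩ t' with hr
    have hrt : r ⊆ t := Finset.inter_subset_left
    have hrt' : r ⊆ t' := Finset.inter_subset_right
    obtain ⟨a, ha⟩ : ∃ a, t \ r = {a} := by
      rw [← Finset.card_eq_one, Finset.card_sdiff_of_subset hrt]; omega
    obtain ⟨b, hb⟩ : ∃ b, t' \ r = {b} := by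
      rw [← Finset.card_eq_one, Finset.card_sdiff_of_subset hrt']; omega
    have har : a ∈ t \ r := by rw [ha]; exact Finset.mem_singleton_self a
    have hbr : b ∈ t' \ r := by rw [hb]; exact Finset.mem_singleton_self b
    rw [Finset.mem_sdiff] at har hbr
    have hta : insert a r = t := by
      rw [← Finset.sdiff_union_of_subset hrt, ha]; rfl
    have htb : insert b r = t' := by
      rw [← Finset.sdiff_union_of_subset hrt', hb]; rfl
    have hab : a ≠ b := by
      rintro rfl
      exact har.2 (Finset.mem_inter.2 ⟨har.1, hbr.1⟩)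
    obtain ⟨a0, b0, -, -, -, hall⟩ := itemB12b itemB8a L hf m hL r (hf.mono ht hrt) hi
    have hA := (hall a).1 ⟨har.2, by rw [hta]; exact ht⟩
    have hB := (hall b).1 ⟨hbr.2, by rw [htb]; exact ht'⟩
    have hone : ∀ c, c ∉ r → insert c r ∈ L → c = a ∨ c = b := by
      intro c hc1 hc2
      have hC := (hall c).1 ⟨hc1, hc2⟩
      rcases hA with hA | hA <;> rcases hB with hB | hB <;> rcases hC with hC | hC <;>
        first
          | exact absurd (hA.trans hB.symm) hab
          | (left; exact hC.trans hA.symm)
          | (right; exact hC.trans hB.symm)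
    have hsum : sg a r * z t + sg b r * z t' = 0 := by
      have h1 : bdS L z r = 0 := by rw [hbz]; rfl
      unfold bdS at h1
      have hsub : ({a, b} : Finset ℕ) ⊆ verts L \ r := by
        intro c hc
        rw [Finset.mem_insert, Finset.mem_singleton] at hc
        rw [Finset.mem_sdiff]
        rcases hc with rfl | rfl
        · exact ⟨A1.subset_verts ht har.1, har.2⟩
        · exact ⟨A1.subset_verts ht' hbr.1, hbr.2⟩
      rw [← Finset.sum_subset hsub, Finset.sum_pair hab, hta, htb] at h1
      · exact h1
      · intro c hc hc2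
        rw [Finset.mem_sdiff] at hc
        by_contra hne
        have hzc : z (insert c r) ≠ 0 := fun h => hne (by rw [h, mul_zero])
        have := hone c hc.2 (hzL _ hzc).1
        apply hc2
        rw [Finset.mem_insert, Finset.mem_singleton]
        exact this
    have habs : ∀ x (u : Finset ℕ), |sg x u| = 1 := by
      intro x u
      unfold sg
      rw [abs_pow, abs_neg, abs_one, one_pow]
    have h2 : sg b r * z t' = -(sg a r * z t) := by linarith
    have h3 : |sg b r * z t'| = |sg a r * z t| := by rw [h2, abs_neg]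
    rw [abs_mul, abs_mul, habs, habs, one_mul, one_mul] at h3
    exact h3
  have hall : ∀ t ∈ L, t.card = m + 1 → |z t| = |z t0| :=
    itemB12a itemB8a L hf m hL (fun t => |z t| = |z t0|)
      (fun t ht t' ht' hc hc' hi h => hridge t ht t' ht' hc hc' hi h) t0 ht0L.1 ht0L.2 rfl
  have hc0 : 0 < |z t0| := abs_pos.2 ht0
  -- signs
  set zz : Finset ℕ → ℤ := fun t => ((SignType.sign (z t) : SignType) : ℤ) with hzz
  have hzz' : ∀ t, z t = |z t0| * (zz t : ℝ) := by
    intro t
    by_cases h : z t = 0
    · simp [hzz, h]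
    · have h1 := hzL t h
      rw [← hall t h1.1 h1.2, hzz]
      simp only
      rw [SignType.intCast_cast, mul_comm]
      exact (sign_mul_abs _).symm
  have hzz0 : ∀ t, zz t ≠ 0 → z t ≠ 0 := by
    intro t ht h
    apply ht
    simp [hzz, h]
  have hzz1 : ∀ t, z t ≠ 0 → zz t ≠ 0 := by
    intro t ht h
    apply ht
    rw [hzz' t, h]; simp
  have hcyc : ∀ r, ∑ a ∈ verts L \ r, sg a r * (zz (insert a r) : ℝ) = 0 := by
    intro r
    have h1 : bdS L z r = 0 := by rw [hbz]; rfl
    unfold bdS at h1
    have h2 : ∑ a ∈ verts L \ r, sg a r * z (insert a r) =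
        |z t0| * ∑ a ∈ verts L \ r, sg a r * (zz (insert a r) : ℝ) := by
      rw [Finset.mul_sum]
      refine Finset.sum_congr rfl fun a _ => ?_
      rw [hzz' (insert a r)]; ring
    rw [h2] at h1
    exact (mul_eq_zero.1 h1).resolve_left hc0.ne'
  -- the orientation
  set o : (Fin (m + 1) → ℕ) → ℤ := fun s => vs s * zz (Finset.univ.image s) with ho
  have himg : ∀ (s : Fin (m + 1) → ℕ) (e : Equiv.Perm (Fin (m + 1))),
      Finset.univ.image (s ∘ e) = Finset.univ.image s := by
    intro s e
    ext x
    simp only [Finset.mem_image, Finset.mem_univ, true_and, Function.comp]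
    constructor
    · rintro ⟨a, rfl⟩; exact ⟨e a, rfl⟩
    · rintro ⟨a, rfl⟩; exact ⟨e.symm a, by simp⟩
  have hswap : ∀ (s : Fin (m + 1) → ℕ) (i j : Fin (m + 1)), i ≠ j →
      o (s ∘ Equiv.swap i j) = - o s := by
    intro s i j hij
    simp only [ho]
    rw [vs_swap s i j hij, himg, neg_mul]
  have hcons : ∀ g : Fin m → ℕ, ∑ x ∈ verts L, o (Fin.cons x g) = 0 := by
    intro g
    by_cases hg : Function.Injective g
    · set r := Finset.univ.image g with hr
      have h1 : ∑ x ∈ verts L, (o (Fin.cons x g) : ℝ) =
          (vs g : ℝ) * ∑ a ∈ verts L \ r, sg a r * (zz (insert a r) : ℝ) := by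
        rw [Finset.mul_sum, ← Finset.sum_subset (Finset.sdiff_subset : verts L \ r ⊆ verts L)]
        · refine Finset.sum_congr rfl fun x hx => ?_
          rw [Finset.mem_sdiff] at hx
          simp only [ho]
          have h2 : Finset.univ.image (Fin.cons x g : Fin (m + 1) → ℕ) = insert x r := by
            rw [hr]
            ext y
            simp only [Finset.mem_image, Finset.mem_univ, true_and, Finset.mem_insert,
              Fin.exists_fin_succ, Fin.cons_zero, Fin.cons_succ]
            rw [eq_comm]
          rw [h2, vs_cons]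
          push_cast
          have h3 := sign_sg x g hg hx.2
          push_cast at h3
          rw [h3]; ring
        · intro x hx hx2
          have hxr : x ∈ r := by
            by_contra h
            exact hx2 (Finset.mem_sdiff.2 ⟨hx, h⟩)
          rw [hr, Finset.mem_image] at hxr
          obtain ⟨j, -, hj⟩ := hxr
          have hni : ¬ Function.Injective (Fin.cons x g : Fin (m + 1) → ℕ) := by
            intro hinj
            have : (0 : Fin (m + 1)) = j.succ := hinj (by simp [hj])
            exact absurd this (Fin.succ_ne_zero j).symm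
          simp only [ho]
          rw [vs_eq_zero _ hni]; simp
      rw [hcyc r, mul_zero] at h1
      exact_mod_cast h1
    · refine Finset.sum_eq_zero fun x _ => ?_
      simp only [ho]
      rw [vs_cons, vs_eq_zero g hg]; simp
  refine ⟨o, ⟨hswap, ?_, ?_, ?_⟩, ?_⟩
  · intro s hs
    have h1 : zz (Finset.univ.image s) ≠ 0 := fun h => hs (by simp only [ho]; rw [h, mul_zero])
    exact (hzL _ (hzz0 _ h1)).1
  · intro s hs hsL
    have h1 : (Finset.univ.image s).card = m + 1 := by
      rw [Finset.card_image_of_injective _ hs]; simp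
    refine mul_ne_zero (vs_ne_zero s hs) (hzz1 _ ?_)
    rw [← abs_pos, hall _ hsL h1]
    exact hc0
  · intro s i
    have hz0 : ∀ s : Fin (m + 1) → ℕ, ∑ x ∈ verts L, o (Function.update s 0 x) = 0 := by
      intro s
      rw [← hcons (Fin.tail s)]
      refine Finset.sum_congr rfl fun x _ => ?_
      congr 1
      conv_lhs => rw [← Fin.cons_self_tail s]
      rw [Fin.update_cons_zero]
    by_cases hi : i = 0
    · rw [hi]; exact hz0 s
    · have h1 : ∀ x, o (Function.update s i x) =
          - o (Function.update (s ∘ Equiv.swap i 0) 0 x) := by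
        intro x
        rw [← hswap _ i 0 hi]
        congr 1
        funext k
        simp only [Function.comp, Function.update_apply]
        by_cases hk : k = i
        · subst hk; simp
        · by_cases hk0 : k = 0
          · subst hk0
            simp [hi, Ne.symm hi]
          · rw [Equiv.swap_apply_of_ne_of_ne hk hk0]
            simp [hk, hk0, Equiv.swap_apply_of_ne_of_ne hk hk0]
      rw [Finset.sum_congr rfl fun x _ => h1 x, Finset.sum_neg_distrib, hz0, neg_zero]
  · intro s
    simp only [ho]
    rw [abs_mul]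
    have h1 := vs_le s
    have h2 : |zz (Finset.univ.image s)| ≤ 1 := sg_le _
    calc |vs s| * |zz (Finset.univ.image s)| ≤ 1 * 1 :=
          mul_le_mul h1 h2 (abs_nonneg _) zero_le_one
      _ = 1 := one_mul 1

end MP8a95ee.Npc.GLR3P
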