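import Pool.Agent.Work.MP_8a95ee_gt.Fg.Stmts

/-!
# NEB: functions which vanish on the far tuples are locally finite
-/

set_option autoImplicit false

namespace MP8a95ee.Npc.GNEBP

open Classical
open MP8a95ee.Npc

/-- balls are finite -/
theorem ball_finite {X : SimpleGraph ℕ} (hX : IsMedianGraph X) (hL : LocFin X) (x R : ℕ) :
    {y : ℕ | X.dist x y ≤ R}.Finite := by
  induction R with
  | zero =>
    refine (Set.finite_singleton x).subset ?_
    intro y hy
    have h0 : X.dist x y = 0 := Nat.le_zero.1 hy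
    rw [Set.mem_singleton_iff]
    exact ((hX.conn x y).dist_eq_zero_iff.1 h0).symm
  | succ R ih =>
    refine ((Set.finite_singleton x).union (ih.biUnion fun z _ => hL z)).subset ?_
    intro y hy
    by_cases hyx : y = x
    · exact Or.inl hyx
    · right
      obtain ⟨p, hp⟩ := (hX.conn y x).exists_walk_length_eq_dist
      cases p with
      | nil => exact absurd rfl hyx
      | @cons _ a _ hadj q =>
        have h1 : X.dist a x ≤ q.length := SimpleGraph.dist_le q
        rw [SimpleGraph.Walk.length_cons] at hp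
        have h2 : X.dist x y ≤ R + 1 := hy
        rw [SimpleGraph.dist_comm] at h2
        rw [Set.mem_iUnion₂]
        refine ⟨a, ?_, hadj.symm⟩
        show X.dist x a ≤ R
        rw [SimpleGraph.dist_comm]
        omega

theorem prf (hNEA : S_NEA) (h5 : S_CU5) (h3 : S_PT3) : S_NEB := by
  intro X hX hL Γ F hD k x c hc u
  have hfree := (h3 X hX hL Γ F hD).2.1
  have hb := ball_finite hX hL x (∑ i, X.dist (u 0) (u i))
  refine Set.Finite.of_finite_image (f := fun g : Γ => (g : Equiv.Perm ℕ) (u 0))
    (hb.subset ?_) ?_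
  · rintro _ ⟨g, hg, rfl⟩
    have hnf : ¬ Far X x fun i => g • u i := fun hf => hg (hc _ hf)
    have h1 := hNEA X hX hL k x (fun i => g • u i) hnf
    have h2 : ∀ i, X.dist (g • u 0) (g • u i) = X.dist (u 0) (u i) := fun i =>
      (h5 X hX hL g (hD.auto g g.2)).1 (u 0) (u i)
    simp only [h2] at h1
    exact h1
  · intro g _ h _ he
    have he' : (g : Equiv.Perm ℕ) (u 0) = (h : Equiv.Perm ℕ) (u 0) := he
    have h1 : ((h : Equiv.Perm ℕ)⁻¹ * (g : Equiv.Perm ℕ)) (u 0) = u 0 := by
      rw [Equiv.Perm.mul_apply, he']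
      exact (h : Equiv.Perm ℕ).symm_apply_apply (u 0)
    have h2 := hfree _ (Γ.mul_mem (Γ.inv_mem h.2) g.2) (u 0) h1
    rw [inv_mul_eq_one] at h2
    exact Subtype.ext h2.symm

end MP8a95ee.Npc.GNEBP
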