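import Pool.Agent.Work.MP_8a95ee_gt.Fg.Stmts

/-!
# ONE: local cocycles are proportional
-/

set_option autoImplicit false

namespace MP8a95ee.Npc.GONEP

open Classical

/-- the pairing with a boundary -/
lemma lin_bdT {S : Type} {k : ℕ} (f : (Fin k → S) → ℝ) (y : RA.Ch S (k + 1)) :
    Finsupp.linearCombination ℝ f (RA.bdT y) = Finsupp.linearCombination ℝ (RA.dl f) y := by
  induction y using Finsupp.induction_linear with
  | zero => simp
  | add a b ha hb => rw [map_add, map_add, map_add, ha, hb]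
  | single T r =>
    simp only [RA.bdT, RA.bdT0, Finsupp.linearCombination_single, map_smul, map_sum,
      smul_eq_mul, RA.dl, one_mul, mul_one]

lemma lin_zero {S : Type} {k : ℕ} (g : (Fin k → S) → ℝ) (K : (Fin k → S) → Prop)
    (hg : ∀ T, K T → g T = 0) (y : RA.Ch S k) (hy : ∀ T ∈ y.support, K T) :
    Finsupp.linearCombination ℝ g y = 0 := by
  rw [Finsupp.linearCombination_apply, Finsupp.sum]
  refine Finset.sum_eq_zero fun T hT => ?_
  rw [hg T (hy T hT), smul_zero]

theorem prf (hH : S_HDT) (hD : S_DUA) : S_ONE := by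
  intro L hL m hS z hz hbz f f2 hf hf2 h2 h1
  obtain ⟨z1, hz1⟩ := hH L hL m hS
  obtain ⟨μ0, y0, hy0, e0⟩ := hz1 z hz hbz
  have k0 : Finsupp.linearCombination ℝ f (RA.bdT y0) = 0 := by
    rw [lin_bdT]; exact lin_zero _ _ hf _ hy0
  have k2 : Finsupp.linearCombination ℝ f2 (RA.bdT y0) = 0 := by
    rw [lin_bdT]; exact lin_zero _ _ hf2 _ hy0
  have hμ : μ0 ≠ 0 := by
    intro h0
    apply h2
    rw [e0, map_add, k2, h0, zero_smul, map_zero, add_zero]
  have hz1' : Finsupp.linearCombination ℝ f z1 = 0 := by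
    rw [e0, map_add, k0, add_zero, map_smul, smul_eq_mul] at h1
    exact (mul_eq_zero.1 h1).resolve_left hμ
  refine hD (Finset ℕ) (fun k T => DT L T) m f ?_
  intro z' hz' hb'
  obtain ⟨μ, y, hy, e⟩ := hz1 z' hz' hb'
  rw [e, map_add, map_smul, hz1', smul_zero, zero_add, lin_bdT]
  exact lin_zero _ _ hf _ hy

end MP8a95ee.Npc.GONEP
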