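import Pool.Agent.Work.MP_8a95ee_gt.Fg.Stmts

set_option autoImplicit false

namespace MP8a95ee.Npc.GPAIP

open MP8a95ee MP8a95ee.Npc

/-- alternating functions and permutations -/
lemma alt_perm {n : ℕ} {o : (Fin n → ℕ) → ℤ}
    (alt : ∀ (s : Fin n → ℕ) (i j : Fin n), i ≠ j → o (s ∘ Equiv.swap i j) = - o s)
    (σ : Equiv.Perm (Fin n)) : ∀ s, o (s ∘ σ) = (Equiv.Perm.sign σ : ℤ) * o s := by
  induction σ using Equiv.Perm.swap_induction_on with
  | one => intro s; simp
  | swap_mul f x y hxy ih =>
    intro s
    have h : s ∘ (Equiv.swap x y * f : Equiv.Perm (Fin n)) = (s ∘ Equiv.swap x y) ∘ f := by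
      funext i
      simp
    rw [h, ih, alt s x y hxy, Equiv.Perm.sign_mul, Equiv.Perm.sign_swap hxy]
    simp

lemma alt_inj {n : ℕ} {o : (Fin n → ℕ) → ℤ}
    (alt : ∀ (s : Fin n → ℕ) (i j : Fin n), i ≠ j → o (s ∘ Equiv.swap i j) = - o s)
    {t : Fin n → ℕ} (ht : ¬ Function.Injective t) : o t = 0 := by
  simp only [Function.Injective, not_forall] at ht
  obtain ⟨i, j, hij, hne⟩ := ht
  have h : t ∘ Equiv.swap i j = t := by
    funext k
    simp only [Function.comp_apply]
    by_cases hki : k = i
    · subst hki; rw [Equiv.swap_apply_left]; exact hij.symm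
    · by_cases hkj : k = j
      · subst hkj; rw [Equiv.swap_apply_right]; exact hij
      · rw [Equiv.swap_apply_of_ne_of_ne hki hkj]
  have := alt t i j hne
  rw [h] at this
  omega

/-- membership in the entries of `zt` -/
lemma mem_zt {m : ℕ} (t : Fin (m + 1) → ℕ) (B : Finset ℕ) (j : Fin (m + 1)) (a : ℕ) :
    a ∈ RA.zt t B j ↔ a = t (Fin.last m) ∨
      ((a ∈ B ∧ ¬ ∃ i : Fin m, (i : ℕ) < (j : ℕ) ∧ t i.castSucc = a) ∨
        ((∃ i : Fin m, (i : ℕ) < (j : ℕ) ∧ t i.castSucc = a) ∧ a ∉ B)) := by
  simp only [RA.zt, Finset.mem_insert, Finset.mem_symmDiff, Finset.mem_image, Finset.mem_filter,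
    Finset.mem_univ, true_and]

lemma val_eq {m : ℕ} {s t : Fin (m + 1) → ℕ} (hs : Function.Injective s)
    (ht : Function.Injective t) {B : Finset ℕ}
    (hB : B ⊆ Finset.univ.image fun i : Fin m => t i.castSucc) :
    fS s (RA.zt t B) = if t = s ∘ finRotate (m + 1) then (-1 : ℝ) ^ B.card else 0 := by
  classical
  have hlast : ∀ i : Fin m, t i.castSucc ≠ t (Fin.last m) := fun i h =>
    (Fin.castSucc_lt_last i).ne (ht h)
  have hdiff : ∀ (i : Fin m) (a : ℕ), a ≠ t i.castSucc →
      hI a (RA.zt t B i.succ) - hI a (RA.zt t B i.castSucc) = 0 := by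
    intro i a ha
    have h : a ∈ RA.zt t B i.succ ↔ a ∈ RA.zt t B i.castSucc := by
      have h2 : (∃ k : Fin m, (k : ℕ) < ((i.succ : Fin (m + 1)) : ℕ) ∧ t k.castSucc = a) ↔
          (∃ k : Fin m, (k : ℕ) < ((i.castSucc : Fin (m + 1)) : ℕ) ∧ t k.castSucc = a) := by
        constructor
        · rintro ⟨k, hk, hka⟩
          refine ⟨k, ?_, hka⟩
          rw [Fin.val_succ] at hk
          rw [Fin.val_castSucc]
          rcases Nat.lt_succ_iff_lt_or_eq.1 hk with h | h
          · exact h
          · exact absurd (by rw [← hka, Fin.ext h]) ha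
        · rintro ⟨k, hk, hka⟩
          refine ⟨k, ?_, hka⟩
          rw [Fin.val_castSucc] at hk
          rw [Fin.val_succ]
          omega
      rw [mem_zt, mem_zt, h2]
    simp only [hI, h, sub_self]
  have hdiff2 : ∀ (i : Fin m),
      hI (t i.castSucc) (RA.zt t B i.succ) - hI (t i.castSucc) (RA.zt t B i.castSucc) =
        if t i.castSucc ∈ B then -1 else 1 := by
    intro i
    have h1 : t i.castSucc ∈ RA.zt t B i.succ ↔ t i.castSucc ∉ B := by
      rw [mem_zt]
      have : ∃ k : Fin m, (k : ℕ) < ((i.succ : Fin (m + 1)) : ℕ) ∧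
          t k.castSucc = t i.castSucc := ⟨i, by rw [Fin.val_succ]; omega, rfl⟩
      simp only [this, hlast i, not_true_eq_false, and_false, false_or, true_and]
    have h2 : t i.castSucc ∈ RA.zt t B i.castSucc ↔ t i.castSucc ∈ B := by
      rw [mem_zt]
      have : ¬ ∃ k : Fin m, (k : ℕ) < ((i.castSucc : Fin (m + 1)) : ℕ) ∧
          t k.castSucc = t i.castSucc := by
        rintro ⟨k, hk, hka⟩
        have := ht hka
        rw [Fin.castSucc_inj] at this
        subst this
        rw [Fin.val_castSucc] at hk
        omega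
      simp only [this, hlast i, not_false_eq_true, and_true, false_or, false_and, or_false]
    by_cases hb : t i.castSucc ∈ B
    · simp [hI, h1, h2, hb]
    · simp [hI, h1, h2, hb]
  split_ifs with hts
  · have e1 : ∀ i : Fin m, t i.castSucc = s i.succ := by
      intro i
      rw [hts]
      simp only [Function.comp_apply]
      congr 1
      rw [finRotate_apply]
      exact Fin.coeSucc_eq_succ
    have e2 : t (Fin.last m) = s 0 := by
      rw [hts]
      simp only [Function.comp_apply, finRotate_last]
    have h0 : hI (s 0) (RA.zt t B 0) = 1 := by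
      rw [hI, if_pos]
      rw [mem_zt]
      exact Or.inl e2.symm
    rw [fS, h0, one_mul]
    have h3 : ∀ i : Fin m, hI (s i.succ) (RA.zt t B i.succ) - hI (s i.succ) (RA.zt t B i.castSucc) =
        if t i.castSucc ∈ B then -1 else 1 := by
      intro i
      rw [← e1 i]
      exact hdiff2 i
    rw [Finset.prod_congr rfl fun i _ => h3 i, Finset.prod_ite, Finset.prod_const,
      Finset.prod_const_one, mul_one]
    congr 1
    have h4 : B = (Finset.univ.filter fun i : Fin m => t i.castSucc ∈ B).image
        fun i => t i.castSucc := by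
      ext a
      constructor
      · intro ha
        obtain ⟨i, -, hi⟩ := Finset.mem_image.1 (hB ha)
        exact Finset.mem_image.2 ⟨i, Finset.mem_filter.2 ⟨Finset.mem_univ _, by rwa [hi]⟩, hi⟩
      · intro ha
        obtain ⟨i, hi, hia⟩ := Finset.mem_image.1 ha
        rw [← hia]
        exact (Finset.mem_filter.1 hi).2
    conv_rhs => rw [h4]
    rw [Finset.card_image_of_injective]
    intro i j hij
    exact Fin.castSucc_injective m (ht hij)
  · by_contra hne
    apply hts
    have hne1 : hI (s 0) (RA.zt t B 0) ≠ 0 := fun h => hne (by rw [fS, h, zero_mul])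
    have hne2 : ∀ i : Fin m,
        hI (s i.succ) (RA.zt t B i.succ) - hI (s i.succ) (RA.zt t B i.castSucc) ≠ 0 := by
      intro i h
      exact hne (by rw [fS, Finset.prod_eq_zero (Finset.mem_univ i) h, mul_zero])
    have e1 : ∀ i : Fin m, s i.succ = t i.castSucc := by
      intro i
      by_contra h
      exact hne2 i (hdiff i _ h)
    have e2 : s 0 = t (Fin.last m) := by
      have h : s 0 ∈ RA.zt t B 0 := by
        by_contra h
        exact hne1 (by rw [hI, if_neg h])
      rw [mem_zt] at h
      rcases h with h | ⟨h, -⟩ | ⟨⟨k, hk, -⟩, -⟩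
      · exact h
      · obtain ⟨i, -, hi⟩ := Finset.mem_image.1 (hB h)
        exfalso
        have : s i.succ = s 0 := by rw [e1 i]; exact hi
        exact absurd (hs this) (Fin.succ_ne_zero i)
      · simp at hk
    funext j
    simp only [Function.comp_apply]
    refine Fin.lastCases ?_ (fun i => ?_) j
    · rw [finRotate_last]; exact e2.symm
    · rw [finRotate_apply, Fin.coeSucc_eq_succ]; exact (e1 i).symm

theorem prf : S_PAI := by
  classical
  intro L hL m o ho s hs hsL
  obtain ⟨alt, -, -, -⟩ := ho
  set t0 : Fin (m + 1) → ℕ := s ∘ finRotate (m + 1) with ht0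
  have ht0i : Function.Injective t0 := hs.comp (finRotate (m + 1)).injective
  have ht0m : t0 ∈ Fintype.piFinset (fun _ : Fin (m + 1) => verts L) := by
    rw [Fintype.mem_piFinset]
    intro i
    rw [verts, Finset.mem_biUnion]
    exact ⟨_, hsL, Finset.mem_image.2 ⟨finRotate (m + 1) i, Finset.mem_univ _, rfl⟩⟩
  have key : ∀ t : Fin (m + 1) → ℕ,
      (∑ B ∈ (Finset.univ.image fun i : Fin m => t i.castSucc).powerset,
        ((o t : ℝ) * (-1) ^ B.card) * fS s (RA.zt t B)) =
        if t = t0 then (2 : ℝ) ^ m * (o t : ℝ) else 0 := by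
    intro t
    by_cases hi : Function.Injective t
    · split_ifs with h
      · have h1 : ∀ B ∈ (Finset.univ.image fun i : Fin m => t i.castSucc).powerset,
            ((o t : ℝ) * (-1) ^ B.card) * fS s (RA.zt t B) = (o t : ℝ) := by
          intro B hB
          rw [val_eq hs hi (Finset.mem_powerset.1 hB), if_pos (by rw [h])]
          rw [mul_assoc, ← mul_pow]
          norm_num
        rw [Finset.sum_congr rfl h1, Finset.sum_const, Finset.card_powerset,
          Finset.card_image_of_injective, Finset.card_univ, Fintype.card_fin, nsmul_eq_mul]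
        · push_cast
          ring
        · intro i j hij
          exact Fin.castSucc_injective m (hi hij)
      · refine Finset.sum_eq_zero fun B hB => ?_
        rw [val_eq hs hi (Finset.mem_powerset.1 hB), if_neg h, mul_zero]
    · have h0 : o t = 0 := alt_inj alt hi
      rw [h0]
      simp
  have hlin : Finsupp.linearCombination ℝ (fS s) (RA.zeta L o) =
      ∑ t ∈ Fintype.piFinset (fun _ : Fin (m + 1) => verts L),
        ∑ B ∈ (Finset.univ.image fun i : Fin m => t i.castSucc).powerset,
          ((o t : ℝ) * (-1) ^ B.card) * fS s (RA.zt t B) := by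
    rw [RA.zeta, map_sum]
    refine Finset.sum_congr rfl fun t _ => ?_
    rw [map_sum]
    refine Finset.sum_congr rfl fun B _ => ?_
    rw [Finsupp.linearCombination_single, smul_eq_mul]
  rw [hlin, Finset.sum_congr rfl fun t _ => key t, Finset.sum_ite_eq' _ t0, if_pos ht0m, ht0,
    alt_perm alt, sign_finRotate]
  push_cast
  rw [← mul_assoc, ← mul_pow]
  norm_num

end MP8a95ee.Npc.GPAIP
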