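import Pool.Agent.Work.MP_8a95ee_gt.Fb.All
import Pool.Agent.Work.MP_8a95ee_gt.R.ItemA2
import Pool.Agent.Work.MP_8a95ee_gt.Fg.Final
import Pool.Agent.Work.MP_8a95ee_gt.Fg.I_FB4
import Pool.Agent.Work.MP_8a95ee_gt.Fg.I_FB5
import Pool.Agent.Work.MP_8a95ee_gt.Fg.I_FB6
import Pool.Agent.Work.MP_8a95ee_gt.Fg.I_FS1
import Pool.Agent.Work.MP_8a95ee_gt.Fg.I_FS2
import Pool.Agent.Work.MP_8a95ee_gt.Fg.I_CWF
import Pool.Agent.Work.MP_8a95ee_gt.Fg.I_FLW
import Pool.Agent.Work.MP_8a95ee_gt.Fg.I_NEA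
import Pool.Agent.Work.MP_8a95ee_gt.Fg.I_NEB
import Pool.Agent.Work.MP_8a95ee_gt.Fg.I_ETA
import Pool.Agent.Work.MP_8a95ee_gt.Fg.I_HMT
import Pool.Agent.Work.MP_8a95ee_gt.Fg.I_HDT
import Pool.Agent.Work.MP_8a95ee_gt.Fg.I_DUA
import Pool.Agent.Work.MP_8a95ee_gt.Fg.I_ONE
import Pool.Agent.Work.MP_8a95ee_gt.Fg.I_PAI
import Pool.Agent.Work.MP_8a95ee_gt.Fg.I_LR3

/-!
# Spaces over nonpositively curved cubulated manifolds: all items
-/

set_option autoImplicit false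

namespace MP8a95ee.Npc

theorem allFS1 : S_FS1 := GFS1P.prf

theorem allFS2 : S_FS2 := GFS2P.prf allFS1

theorem allCWF : S_CWF := GCWFP.prf allFS1

theorem allFB4 : S_FB4 := GFB4P.prf allLFT allFB1

theorem allFB5 : S_FB5 := GFB5P.prf

theorem allFB6 : S_FB6 := GFB6P.prf allFB1

theorem allFLW : S_FLW := GFLWP.prf allMG5 allWA2 allCU1 allCU3

theorem allNEA : S_NEA := GNEAP.prf allMG5

theorem allNEB : S_NEB := GNEBP.prf allNEA allCU5 allPT3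

theorem allETA : S_ETA := GETAP.prf

theorem allHMT : S_HMT := GHMTP.prf RA.itemA2 allETA

theorem allHDT : S_HDT := GHDTP.prf allHMT RA.itemB5 RA.itemB8a

theorem allDUA : S_DUA := GDUAP.prf

theorem allONE : S_ONE := GONEP.prf allHDT allDUA

theorem allPAI : S_PAI := GPAIP.prf

theorem allLR3 : S_LR3 := GLR3P.prf

theorem allFGM : S_FGM :=
  Fg.prfFGM allDIM allDBD allNLO allUFU allZC6 allMG5 allWA2 allWA3 allCXB allFB2 allFB3 allFB4
    allFB5 allFB6 allFS2 allCWF allFLW allNEB allONE allPAI allLR3 RA.itemB7a RA.itemB8a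

theorem allFinalG : S_FinalG := Fg.prfFinalG allFGM allCU5 allDEG allZC5

end MP8a95ee.Npc
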