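import Pool.Agent.Work.MP_8a95ee_gt.Fb.Stmts

/-!
# Spaces over nonpositively curved cubulated manifolds: definitions

`X` is the CAT(0) cube complex, `Γ` the group, `A → B` a regular covering with group `Γ` (the
pull-back of the universal covering of `Mfd X Γ` under a map from `B` to `Mfd X Γ`) and
`ρ : A → ℕ` an equivariant map from `A` to the set of the vertices of `X`.
-/

set_option autoImplicit false

namespace MP8a95ee.Npc

open Classical

/-- The indicator function of the set of the vertices `y` which are closer to `a` than to `x`: one
side of the wall dual to the edge from `x` to `a`. -/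
noncomputable def wall (X : SimpleGraph ℕ) (x a y : ℕ) : ℝ :=
  if X.dist a y < X.dist x y then 1 else 0

/-- The cup product of the coboundaries of the indicator functions of the `n` walls of the cube
with corner `x` and directions `s 0, .., s (n - 1)`, an `n`-cochain on the tuples of vertices. -/
noncomputable def cupW (X : SimpleGraph ℕ) {n : ℕ} (x : ℕ) (s : Fin n → ℕ)
    (v : Fin (n + 1) → ℕ) : ℝ :=
  ∏ i : Fin n, (wall X x (s i) (v i.succ) - wall X x (s i) (v i.castSucc))

/-- The fibre over the centre of the cube with corner `x` and directions `s 0, .., s (n - 1)`: the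
cap product of the transfer of `z` with the cocycle `cupW`. -/
noncomputable def fibW (X : SimpleGraph ℕ) (Γ : Subgroup (Equiv.Perm ℕ)) {A : Type}
    [TopologicalSpace A] [MulAction Γ A] [ContinuousConstSMul Γ A] (ρ : A → ℕ) {n b N : ℕ}
    (h : N = n + b) (x : ℕ) (s : Fin n → ℕ) (z : SChain A N) : SChain A b :=
  z.sum fun τ r => ∑ᶠ g : Γ, Finsupp.single (bkS h (actS g τ))
    (r * cupW X x s fun i => g • ρ (τ (vtx ⟨i, by omega⟩)))

end MP8a95ee.Npc
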