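import Pool.Agent.Work.MP_8a95ee_gt.Fg.Stmts
import Pool.Agent.Work.MP_8a95ee_gt.Bd.B06
import Pool.Agent.Work.MP_8a95ee_gt.Bd.B05

/-!
# Item LR1: codimension one faces are contained in exactly two facets

This is `itemB12b`; no hypotheses are used.
-/

set_option autoImplicit false

namespace MP8a95ee.Npc.GLR1P

open MP8a95ee.RA

theorem prf : S_LR1 := by
  intro L hf n hL s hs hn
  subst hn
  obtain ⟨a, b, hab, -, -, h⟩ := itemB12b itemB8a L hf s.card hL s hs rfl
  exact ⟨a, b, hab, h⟩

end MP8a95ee.Npc.GLR1P
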