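import Pool.Agent.Work.MP_8a95ee_gt.Fg.Stmts

/-!
# NEA: the distance of a vertex from a tuple which is not far
-/

set_option autoImplicit false

namespace MP8a95ee.Npc.GNEAP

open Classical
open MP8a95ee.Npc

variable {X : SimpleGraph ℕ}

theorem sep_tri (D : WS X) (x m y : ℕ) : D.sep x y ⊆ D.sep x m ∪ D.sep m y := by
  intro h hh
  rw [Finset.mem_union, D.mem_sep, D.mem_sep]
  rw [D.mem_sep] at hh
  have := (D.Sep_trans (h := h) (x := x) (y := m) (z := y)).1 hh
  tauto

theorem sep_symmDiff (D : WS X) (x m y : ℕ) :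
    D.sep x y = (D.sep x m ∪ D.sep m y) \ (D.sep x m ∩ D.sep m y) := by
  ext h
  rw [Finset.mem_sdiff, Finset.mem_union, Finset.mem_inter, D.mem_sep, D.mem_sep, D.mem_sep,
    D.Sep_trans (y := m)]
  tauto

/-- if `m` is between `x` and `y` then no wall separates it from both -/
theorem between (D : WS X) {x m y : ℕ} (h : X.dist x m + X.dist m y = X.dist x y) (w : D.H)
    (h1 : D.Sep w x m) (h2 : D.Sep w m y) : False := by
  rw [D.dist_eq, D.dist_eq, D.dist_eq, sep_symmDiff D x m y] at h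
  have hsub : D.sep x m ∩ D.sep m y ⊆ D.sep x m ∪ D.sep m y :=
    Finset.inter_subset_left.trans Finset.subset_union_left
  have hc := Finset.card_sdiff_add_card_eq_card hsub
  have hu := Finset.card_union_add_card_inter (D.sep x m) (D.sep m y)
  have hpos : 0 < (D.sep x m ∩ D.sep m y).card := by
    apply Finset.card_pos.2
    exact ⟨w, Finset.mem_inter.2 ⟨D.mem_sep.2 h1, D.mem_sep.2 h2⟩⟩
  omega

theorem median_sep (hX : IsMedianGraph X) (D : WS X) (x y z : ℕ) :
    ∃ m, ∀ w : D.H, D.Sep w x m ↔ D.Sep w x y ∧ D.Sep w x z := by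
  obtain ⟨m, ⟨h1, h2, h3⟩, -⟩ := hX.med x y z
  refine ⟨m, fun w => ?_⟩
  have b1 := between D h1 w
  have b2 := between D h2 w
  have b3 := between D h3 w
  have c1 := D.Sep_trans (h := w) (x := x) (y := m) (z := y)
  have c3 := D.Sep_trans (h := w) (x := x) (y := m) (z := z)
  have c2 : D.Sep w y m ↔ D.Sep w m y := D.Sep_comm
  constructor
  · intro hm
    exact ⟨c1.2 (fun hh => b1 hm (hh.1 hm)), c3.2 (fun hh => b3 hm (hh.1 hm))⟩
  · rintro ⟨hy, hz⟩
    by_contra hm
    have e1 : D.Sep w m y := by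
      by_contra hn
      exact (c1.1 hy) ⟨fun h => absurd h hm, fun h => absurd h hn⟩
    have e2 : D.Sep w m z := by
      by_contra hn
      exact (c3.1 hz) ⟨fun h => absurd h hm, fun h => absurd h hn⟩
    exact b2 (c2.2 e1) e2

theorem multi_median (hX : IsMedianGraph X) (D : WS X) (x : ℕ) (k : ℕ) (u : Fin (k + 1) → ℕ) :
    ∃ m, ∀ w : D.H, D.Sep w x m ↔ ∀ i, D.Sep w x (u i) := by
  induction k with
  | zero =>
    refine ⟨u 0, fun w => ⟨fun h i => ?_, fun h => h 0⟩⟩
    have : i = 0 := Fin.ext (by have := i.isLt; simp only [Fin.val_zero]; omega)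
    rw [this]
    exact h
  | succ k ih =>
    obtain ⟨m, hm⟩ := ih (fun i => u i.castSucc)
    obtain ⟨m', hm'⟩ := median_sep hX D x m (u (Fin.last (k + 1)))
    refine ⟨m', fun w => ?_⟩
    rw [hm', hm]
    constructor
    · rintro ⟨h1, h2⟩ i
      refine Fin.lastCases h2 (fun j => h1 j) i
    · intro h
      exact ⟨fun i => h i.castSucc, h _⟩

/-- a neighbour of `x` on a geodesic -/
theorem exists_step (hX : IsMedianGraph X) {x y : ℕ} (hxy : x ≠ y) :
    ∃ a, X.Adj x a ∧ X.dist a y < X.dist x y := by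
  obtain ⟨p, hp⟩ := (hX.conn x y).exists_walk_length_eq_dist
  cases p with
  | nil => exact absurd rfl hxy
  | @cons _ a _ hadj q =>
    refine ⟨a, hadj, ?_⟩
    have h1 : X.dist a y ≤ q.length := SimpleGraph.dist_le q
    rw [SimpleGraph.Walk.length_cons] at hp
    omega

theorem step_sep (D : WS X) {x a y : ℕ} (hxa : X.Adj x a) :
    D.Sep (D.wall x a) x y ↔ X.dist a y < X.dist x y := by
  have hone : D.sep a x = {D.wall x a} := by
    ext h
    rw [D.mem_sep, D.Sep_comm, D.Sep_step hxa, Finset.mem_singleton]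
  have hone' : D.sep x a = {D.wall x a} := by
    ext h
    rw [D.mem_sep, D.Sep_step hxa, Finset.mem_singleton]
  constructor
  · intro hs
    rw [D.dist_eq, D.dist_eq]
    have hsub : D.sep a y ⊆ D.sep x y := by
      intro h hh
      rw [sep_symmDiff D a x y, hone, Finset.mem_sdiff, Finset.mem_union, Finset.mem_inter,
        Finset.mem_singleton] at hh
      rcases hh.1 with h1 | h1
      · rw [h1]
        exact D.mem_sep.2 hs
      · exact h1
    apply Finset.card_lt_card
    refine ⟨hsub, fun hcon => ?_⟩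
    have h2 := hcon (D.mem_sep.2 hs)
    rw [sep_symmDiff D a x y, hone, Finset.mem_sdiff, Finset.mem_inter] at h2
    exact h2.2 ⟨Finset.mem_singleton.2 rfl, D.mem_sep.2 hs⟩
  · intro hlt
    by_contra hs
    have hsub : D.sep x y ⊆ D.sep a y := by
      intro h hh
      rw [sep_symmDiff D a x y, hone, Finset.mem_sdiff, Finset.mem_union, Finset.mem_inter,
        Finset.mem_singleton]
      refine ⟨Or.inr hh, fun hc => ?_⟩
      rw [hc.1] at hh
      exact hs (D.mem_sep.1 hh)
    have := Finset.card_le_card hsub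
    rw [D.dist_eq, D.dist_eq] at hlt
    omega

theorem prf (hMG5 : S_MG5) : S_NEA := by
  intro X hX hL k x u hfar
  obtain ⟨D⟩ := hMG5 X hX
  -- no wall separates `x` from all vertices of the tuple
  have key : ∀ w : D.H, ∃ i, ¬ D.Sep w x (u i) := by
    by_contra hcon
    push Not at hcon
    obtain ⟨w, hw⟩ := hcon
    obtain ⟨m, hm⟩ := multi_median hX D x k u
    have hwm : D.Sep w x m := (hm w).2 hw
    have hne : x ≠ m := by
      rintro rfl
      exact D.Sep_self hwm
    obtain ⟨a, hxa, hlt⟩ := exists_step hX hne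
    apply hfar
    refine ⟨a, fun i => ?_⟩
    rw [mem_In hL]
    refine ⟨hxa, ?_⟩
    exact (step_sep D hxa).1 ((hm _).1 ((step_sep D hxa).2 hlt) i)
  have hsub : D.sep x (u 0) ⊆ Finset.univ.biUnion fun i => D.sep (u 0) (u i) := by
    intro h hh
    rw [D.mem_sep] at hh
    obtain ⟨i, hi⟩ := key h
    rw [Finset.mem_biUnion]
    refine ⟨i, Finset.mem_univ _, ?_⟩
    rw [D.mem_sep]
    have h1 := D.Sep_trans (h := h) (x := x) (y := u 0) (z := u i)
    by_contra hn
    apply hi
    rw [h1]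
    exact fun hc => hn (hc.1 hh)
  calc X.dist x (u 0) = (D.sep x (u 0)).card := D.dist_eq _ _
    _ ≤ (Finset.univ.biUnion fun i => D.sep (u 0) (u i)).card := Finset.card_le_card hsub
    _ ≤ ∑ i, (D.sep (u 0) (u i)).card := Finset.card_biUnion_le
    _ = ∑ i, X.dist (u 0) (u i) := Finset.sum_congr rfl fun i _ => (D.dist_eq _ _).symm

end MP8a95ee.Npc.GNEAP
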