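import Pool.Agent.Work.MP_8a95ee_gt.Fg.Stmts
import Pool.Agent.Work.MP_8a95ee_gt.Fb.Main
import Pool.Agent.Work.MP_8a95ee_gt.Fb.I_TR3
import Pool.Agent.Work.MP_8a95ee_gt.Fb.I_NL1
import Pool.Agent.Work.MP_8a95ee_gt.Fb.I_CXB
import Pool.Agent.Work.MP_8a95ee_gt.Bd.B10
import Pool.Agent.Work.MP_8a95ee_gt.Bd.B07

/-!
# Spaces over nonpositively curved cubulated manifolds: the theorem
-/

set_option autoImplicit false

namespace MP8a95ee.Npc

open Classical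

/-- FGM: the theorem -/
def S_FGM : Prop := ∀ m N : ℕ, ∃ c : ℝ, 0 < c ∧
  ∀ (X : SimpleGraph ℕ) (_ : IsMedianGraph X) (_ : LocFin X)
    (_ : ∀ x, RA.IsHSphere (link X x) (m + 1))
    (Γ : Subgroup (Equiv.Perm ℕ)) (F : Finset ℕ) (_ : IsDeck X Γ F)
    (A B W : Type) [TopologicalSpace A] [TopologicalSpace B] [TopologicalSpace W]
    [MulAction Γ A] [ContinuousConstSMul Γ A] (π : C(A, B)) (_ : IsReg Γ π)
    (ρ : A → ℕ) (_ : ∀ (g : Γ) (a : A), ρ (g • a) = g • ρ a) (b : ℕ)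
    (z : SChain A (m + b + 1)) (_ : bd (push π z) = 0)
    (x₀ : ℕ) (s₀ : Fin (m + 1) → ℕ) (_ : s₀ ∈ Dom X (m + 1) x₀) (r : C(A, W)) (ν : ℝ)
    (_ : ∀ y : SChain W (b + 1), ν ≤
      l1 (push r (fibW X Γ ρ (show m + b + 1 = (m + 1) + b by omega) x₀ s₀ z) + bd y))
    (w : SChain B (m + b + 2)),
    c * (∑ x ∈ F.filter (Tame X m N), |∑ s ∈ link X x, (-1 / 2 : ℝ) ^ s.card|) * ν ≤
      l1 (push π z + bd w)

namespace Fg

open Fb

theorem DT_KF {L : Finset (Finset ℕ)} {k : ℕ} {T : Fin k → Finset ℕ} (h : DT L T) : KF L T :=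
  ⟨h.1, Or.inl h.2⟩

theorem zeta_DT {L : Finset (Finset ℕ)} (hf : FlagC L) {m : ℕ} {o : (Fin (m + 1) → ℕ) → ℤ}
    (ho : IsOrient L (m + 1) o) : ∀ T ∈ (RA.zeta L o).support, DT L T := by
  intro T hT
  unfold RA.zeta at hT
  obtain ⟨s, -, hs⟩ := Finset.mem_biUnion.1 (Finsupp.support_finsetSum hT)
  obtain ⟨B, hB, hB'⟩ := Finset.mem_biUnion.1 (Finsupp.support_finsetSum hs)
  have h1 := Finsupp.support_single_subset hB'
  rw [Finset.mem_singleton] at h1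
  have h2 : o s ≠ 0 := by
    intro h0
    rw [h0] at hB'
    simp at hB'
  rw [h1]
  have h3 := RA.zt_KG hf (fun _ => False) s (ho.2.1 s h2) hB
  refine ⟨h3.1, ?_⟩
  rcases h3.2 with h | ⟨p, -, hp, -⟩
  · exact h
  · exact hp.elim

theorem far_DT {X : SimpleGraph ℕ} {x : ℕ} (hface : ∀ y, In X x y ∈ link X x) {k : ℕ}
    {u : Fin k → ℕ} (hu : Far X x u) : DT (link X x) fun i => In X x (u i) := by
  obtain ⟨a, ha⟩ := hu
  exact ⟨fun i => ⟨hface _, a, ha i⟩, a, ha⟩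

section rel

variable {X : SimpleGraph ℕ} {Γ : Subgroup (Equiv.Perm ℕ)} {A B : Type} [TopologicalSpace A]
  [TopologicalSpace B] [MulAction Γ A] [ContinuousConstSMul Γ A]

/-- cochains which differ by a coboundary -/
theorem rel (hFB4 : S_FB4) (hFB5 : S_FB5) {π : C(A, B)} (hπ : IsReg Γ π) {ρ : A → ℕ}
    (hρ : ∀ (g : Γ) (a : A), ρ (g • a) = g • ρ a) {m b : ℕ} (ze : SChain B (m + b + 1))
    (hz : bd ze = 0) (c c' : (Fin (m + 1 + 1) → ℕ) → ℝ) (hc : LFn Γ c) (hc' : LFn Γ c')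
    (a : (Fin (m + 1) → ℕ) → ℝ) (ha : LFn Γ a) (κ : ℝ)
    (h : ∀ v : Fin (m + 2) → ℕ, c v = κ * c' v + RA.dl a v) :
    ∃ y : SChain A (b + 1), FbL Γ π ρ (show m + b + 1 = (m + 1) + b by omega) c ze =
      κ • FbL Γ π ρ (show m + b + 1 = (m + 1) + b by omega) c' ze + bd y := by
  have h1 := hFB4 Γ A B π hπ ρ hρ m b (m + b) rfl a ha ze
  rw [hz, map_zero] at h1
  have h2 := hFB5 Γ A B π ρ hρ (m + 1) b (m + b + 1) (by omega) c c' hc hc' 1 (-κ) ze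
  have h3 : (fun v : Fin (m + 1 + 1) → ℕ => 1 * c v + -κ * c' v) = fun v => RA.dl a v := by
    funext v
    rw [h v]
    ring
  rw [h3] at h2
  rw [h2] at h1
  refine ⟨(-(-1 : ℝ) ^ m) • FbL Γ π ρ (show m + b + 1 = m + (b + 1) by omega) a ze, ?_⟩
  rw [bd_smul, one_smul] at *
  have h4 : FbL Γ π ρ (show m + b + 1 = (m + 1) + b by omega) c ze +
      -κ • FbL Γ π ρ (show m + b + 1 = (m + 1) + b by omega) c' ze =
      -((-1 : ℝ) ^ m • bd (FbL Γ π ρ (show m + b + 1 = m + (b + 1) by omega) a ze)) :=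
    eq_neg_of_add_eq_zero_left h1.symm
  rw [neg_smul, ← h4]
  rw [neg_smul]
  abel

/-- the facts about the vertices and the cochains -/
structure Facts (X : SimpleGraph ℕ) (Γ : Subgroup (Equiv.Perm ℕ)) (m : ℕ)
    (o : ℕ → (Fin (m + 1) → ℕ) → ℤ) : Prop where
  flag : ∀ x, FlagC (link X x)
  or : ∀ x, IsOrient (link X x) (m + 1) (o x)
  or1 : ∀ x s, |o x s| ≤ 1
  face : ∀ x y, In X x y ∈ link X x
  near : ∀ (k : ℕ) (x : ℕ) (c : (Fin (k + 1) → ℕ) → ℝ), (∀ u, Far X x u → c u = 0) → LFn Γ c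
  fs : ∀ x, ∀ s ∈ Dom X (m + 1) x, ∀ T : Fin (m + 2) → Finset ℕ, DT (link X x) T →
    RA.dl (fS s) T = 0
  cw : ∀ x, ∀ s ∈ Dom X (m + 1) x, ∀ v : Fin (m + 2) → ℕ, cupW X x s v = cx X (fS s) x v
  one : ∀ x, ∀ f f2 : (Fin (m + 1) → Finset ℕ) → ℝ,
    (∀ T : Fin (m + 2) → Finset ℕ, DT (link X x) T → RA.dl f T = 0) →
    (∀ T : Fin (m + 2) → Finset ℕ, DT (link X x) T → RA.dl f2 T = 0) →
    Finsupp.linearCombination ℝ f2 (RA.zeta (link X x) (o x)) ≠ 0 →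
    Finsupp.linearCombination ℝ f (RA.zeta (link X x) (o x)) = 0 →
    ∃ f' : (Fin m → Finset ℕ) → ℝ, ∀ T : Fin (m + 1) → Finset ℕ, DT (link X x) T →
      f T = RA.dl f' T
  pai : ∀ x, ∀ s ∈ Dom X (m + 1) x,
    Finsupp.linearCombination ℝ (fS s) (RA.zeta (link X x) (o x)) = (-2 : ℝ) ^ m * (o x s : ℝ)

theorem LFn_cx {m : ℕ} {o : ℕ → (Fin (m + 1) → ℕ) → ℤ} (H : Facts X Γ m o) (x : ℕ)
    (f : (Fin (m + 1) → Finset ℕ) → ℝ)
    (hf : ∀ T : Fin (m + 2) → Finset ℕ, DT (link X x) T → RA.dl f T = 0) :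
    LFn Γ (cx X f x) :=
  H.near (m + 1) x (cx X f x) fun u hu => hf _ (far_DT (H.face x) hu)

theorem LFn_cup {m : ℕ} {o : ℕ → (Fin (m + 1) → ℕ) → ℤ} (H : Facts X Γ m o) {x : ℕ}
    {s : Fin (m + 1) → ℕ} (hs : s ∈ Dom X (m + 1) x) :
    LFn Γ (cupW X x s : (Fin (m + 1 + 1) → ℕ) → ℝ) := by
  have h1 : (cupW X x s : (Fin (m + 1 + 1) → ℕ) → ℝ) = cx X (fS s) x := by
    funext v
    exact H.cw x s hs v
  rw [h1]
  exact LFn_cx H x (fS s) (H.fs x s hs)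

theorem or_abs {m : ℕ} {o : ℕ → (Fin (m + 1) → ℕ) → ℤ} (H : Facts X Γ m o) {x : ℕ}
    {s : Fin (m + 1) → ℕ} (hs : s ∈ Dom X (m + 1) x) : (o x s : ℝ) = 1 ∨ (o x s : ℝ) = -1 := by
  unfold Dom at hs
  rw [Finset.mem_filter] at hs
  have h10 : o x s ≠ 0 := (H.or x).2.2.1 s hs.2.1 hs.2.2
  have h11 := H.or1 x s
  have h12 : o x s = 1 ∨ o x s = -1 := by
    rw [abs_le] at h11
    omega
  rcases h12 with h | h
  · left
    rw [h]
    norm_num
  · right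
    rw [h]
    norm_num

/-- the cochains of a vertex are proportional -/
theorem vert (hFB4 : S_FB4) (hFB5 : S_FB5) {π : C(A, B)} (hπ : IsReg Γ π) {ρ : A → ℕ}
    (hρ : ∀ (g : Γ) (a : A), ρ (g • a) = g • ρ a) {m b : ℕ} (ze : SChain B (m + b + 1))
    (hz : bd ze = 0) {o : ℕ → (Fin (m + 1) → ℕ) → ℤ} (H : Facts X Γ m o) (x : ℕ)
    (f : (Fin (m + 1) → Finset ℕ) → ℝ)
    (hf : ∀ T : Fin (m + 2) → Finset ℕ, DT (link X x) T → RA.dl f T = 0)
    (s : Fin (m + 1) → ℕ) (hs : s ∈ Dom X (m + 1) x) :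
    ∃ y : SChain A (b + 1), FbL Γ π ρ (show m + b + 1 = (m + 1) + b by omega) (cx X f x) ze =
      (Finsupp.linearCombination ℝ f (RA.zeta (link X x) (o x)) / ((-2 : ℝ) ^ m * (o x s : ℝ))) •
        FbL Γ π ρ (show m + b + 1 = (m + 1) + b by omega) (cupW X x s) ze + bd y := by
  set γ : ℝ := Finsupp.linearCombination ℝ f (RA.zeta (link X x) (o x)) /
    ((-2 : ℝ) ^ m * (o x s : ℝ)) with hγ
  have hne : (-2 : ℝ) ^ m * (o x s : ℝ) ≠ 0 := by
    refine mul_ne_zero (pow_ne_zero _ (by norm_num)) ?_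
    rcases or_abs H hs with h | h <;> rw [h] <;> norm_num
  have hlin : ∀ z : RA.Ch (Finset ℕ) (m + 1),
      Finsupp.linearCombination ℝ (fun T => f T - γ * fS s T) z =
      Finsupp.linearCombination ℝ f z - γ * Finsupp.linearCombination ℝ (fS s) z := by
    intro z
    rw [Finsupp.linearCombination_apply, Finsupp.linearCombination_apply,
      Finsupp.linearCombination_apply, Finsupp.mul_sum, ← Finsupp.sum_sub]
    refine Finsupp.sum_congr fun T _ => ?_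
    simp only [smul_eq_mul]
    ring
  have hdl : ∀ T : Fin (m + 2) → Finset ℕ, RA.dl (fun T => f T - γ * fS s T) T =
      RA.dl f T - γ * RA.dl (fS s) T := by
    intro T
    unfold RA.dl
    rw [Finset.mul_sum, ← Finset.sum_sub_distrib]
    refine Finset.sum_congr rfl fun i _ => ?_
    simp only [smul_eq_mul]
    ring
  obtain ⟨f', hf'⟩ := H.one x (fun T => f T - γ * fS s T) (fS s)
    (fun T hT => by rw [hdl, hf T hT, H.fs x s hs T hT, mul_zero, sub_zero]) (H.fs x s hs)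
    (by rw [H.pai x s hs]; exact hne)
    (by rw [hlin, H.pai x s hs, hγ, div_mul_cancel₀ _ hne, sub_self])
  have ha : LFn Γ (fun u : Fin (m + 1) → ℕ => f (fun i => In X x (u i)) -
      γ * fS s (fun i => In X x (u i)) - RA.dl f' fun i => In X x (u i)) := by
    refine H.near m x _ fun u hu => ?_
    rw [sub_eq_zero]
    exact hf' _ (far_DT (H.face x) hu)
  refine rel hFB4 hFB5 hπ hρ ze hz (cx X f x) (cupW X x s) (LFn_cx H x f hf) (LFn_cup H hs) _ ha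
    γ ?_
  intro v
  rw [H.cw x s hs v]
  unfold cx
  have h1 : RA.dl (fun u : Fin (m + 1) → ℕ => f (fun i => In X x (u i)) -
      γ * fS s (fun i => In X x (u i)) - RA.dl f' fun i => In X x (u i)) v =
      RA.dl f (fun i => In X x (v i)) - γ * RA.dl (fS s) (fun i => In X x (v i)) -
      RA.dl (RA.dl f') (fun i => In X x (v i)) := by
    unfold RA.dl
    rw [Finset.mul_sum, ← Finset.sum_sub_distrib, ← Finset.sum_sub_distrib]
    refine Finset.sum_congr rfl fun i _ => ?_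
    simp only [smul_eq_mul]
    ring
  rw [h1, CXBP.dl_dl]
  ring

/-- equality up to sign and boundaries -/
def Eqv {b : ℕ} (u u' : SChain A b) : Prop :=
  ∃ ε : ℝ, (ε = 1 ∨ ε = -1) ∧ ∃ y : SChain A (b + 1), u = ε • u' + bd y

theorem Eqv.trans {b : ℕ} {u u' u'' : SChain A b} (h : Eqv u u') (h' : Eqv u' u'') :
    Eqv u u'' := by
  obtain ⟨ε, hε, y, hy⟩ := h
  obtain ⟨ε', hε', y', hy'⟩ := h'
  refine ⟨ε * ε', ?_, ε • y' + y, ?_⟩
  · rcases hε with h | h <;> rcases hε' with h' | h' <;> rw [h, h'] <;> norm_num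
  · rw [hy, hy', bd_add, bd_smul, smul_add, smul_smul]
    abel

/-- two facets at the same vertex -/
theorem same (hFB4 : S_FB4) (hFB5 : S_FB5) {π : C(A, B)} (hπ : IsReg Γ π) {ρ : A → ℕ}
    (hρ : ∀ (g : Γ) (a : A), ρ (g • a) = g • ρ a) {m b : ℕ} (ze : SChain B (m + b + 1))
    (hz : bd ze = 0) {o : ℕ → (Fin (m + 1) → ℕ) → ℤ} (H : Facts X Γ m o) (x : ℕ)
    (s s' : Fin (m + 1) → ℕ) (hs : s ∈ Dom X (m + 1) x) (hs' : s' ∈ Dom X (m + 1) x) :
    Eqv (FbL Γ π ρ (show m + b + 1 = (m + 1) + b by omega) (cupW X x s') ze)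
      (FbL Γ π ρ (show m + b + 1 = (m + 1) + b by omega) (cupW X x s) ze) := by
  obtain ⟨y, hy⟩ := vert hFB4 hFB5 hπ hρ ze hz H x (fS s') (H.fs x s' hs') s hs
  have h1 : (cupW X x s' : (Fin (m + 1 + 1) → ℕ) → ℝ) = cx X (fS s') x := by
    funext v
    exact H.cw x s' hs' v
  refine ⟨_, ?_, y, by rw [h1]; exact hy⟩
  rw [H.pai x s' hs']
  have h2 : (-2 : ℝ) ^ m ≠ 0 := pow_ne_zero _ (by norm_num)
  rw [mul_div_mul_left _ _ h2]
  rcases or_abs H hs with h | h <;> rcases or_abs H hs' with h' | h' <;> rw [h, h'] <;> norm_num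

/-- adjacent vertices -/
theorem step (hFB4 : S_FB4) (hFB5 : S_FB5) (hFLW : S_FLW) (h8a : RA.S_B8a)
    (hX : IsMedianGraph X) (hf : LocFin X) {π : C(A, B)}
    (hπ : IsReg Γ π) {ρ : A → ℕ}
    (hρ : ∀ (g : Γ) (a : A), ρ (g • a) = g • ρ a) {m b : ℕ}
    (hS : ∀ x, RA.IsHSphere (link X x) (m + 1)) (ze : SChain B (m + b + 1))
    (hz : bd ze = 0) {o : ℕ → (Fin (m + 1) → ℕ) → ℤ} (H : Facts X Γ m o) (u v : ℕ)
    (huv : X.Adj u v) (s : Fin (m + 1) → ℕ) (hs : s ∈ Dom X (m + 1) u) :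
    ∃ t ∈ Dom X (m + 1) v,
    Eqv (FbL Γ π ρ (show m + b + 1 = (m + 1) + b by omega) (cupW X v t) ze)
      (FbL Γ π ρ (show m + b + 1 = (m + 1) + b by omega) (cupW X u s) ze) := by
  have hv : v ∈ nbr X u := (mem_nbr hf).2 huv
  have hvl : ({v} : Finset ℕ) ∈ link X u := by
    rw [mem_link]
    refine ⟨Finset.singleton_subset_iff.2 hv, ?_⟩
    intro a ha c hc hac
    rw [Finset.mem_singleton] at ha hc
    exact absurd (ha.trans hc.symm) hac
  obtain ⟨-, t0, ht0, hvt, hcard⟩ := h8a (link X u) (H.flag u) (m + 1) (hS u) {v} hvl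
  obtain ⟨s1, hs1, hs1i, hs10⟩ := TR3P.exists_tuple (hvt (Finset.mem_singleton_self v)) hcard
  have hs1D : s1 ∈ Dom X (m + 1) u := by
    rw [ZC4.mem_Dom]
    exact ⟨hs1, by rw [hs1i]; exact ht0⟩
  obtain ⟨hD, -⟩ := hFLW X hX hf m u s1 hs1D (fun _ => 0)
  have hw : (cupW X (s1 0) (fun j => if j = 0 then u else corner X u {s1 0, s1 j}) :
      (Fin (m + 1 + 1) → ℕ) → ℝ) = fun w => (-1) * cupW X u s1 w + 0 * cupW X u s1 w := by
    funext w
    rw [(hFLW X hX hf m u s1 hs1D w).2]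
    ring
  refine ⟨_, by rw [← hs10]; exact hD, ?_⟩
  have h1 : Eqv (FbL Γ π ρ (show m + b + 1 = (m + 1) + b by omega)
      (cupW X (s1 0) (fun j => if j = 0 then u else corner X u {s1 0, s1 j})) ze)
      (FbL Γ π ρ (show m + b + 1 = (m + 1) + b by omega) (cupW X u s1) ze) := by
    refine ⟨-1, Or.inr rfl, 0, ?_⟩
    rw [hw, hFB5 Γ A B π ρ hρ (m + 1) b (m + b + 1) (by omega) _ _ (LFn_cup H hs1D)
      (LFn_cup H hs1D) (-1) 0 ze, zero_smul]
    rw [show bd (0 : SChain A (b + 1)) = 0 from by rw [bd_eq, map_zero]]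
  rw [hs10] at h1
  rw [hs10]
  exact h1.trans (same hFB4 hFB5 hπ hρ ze hz H u s s1 hs hs1D)

/-- all cubes give the same class up to sign -/
theorem conn (hFB4 : S_FB4) (hFB5 : S_FB5) (hFLW : S_FLW) (h8a : RA.S_B8a)
    (hX : IsMedianGraph X) (hf : LocFin X) {π : C(A, B)}
    (hπ : IsReg Γ π) {ρ : A → ℕ}
    (hρ : ∀ (g : Γ) (a : A), ρ (g • a) = g • ρ a) {m b : ℕ}
    (hS : ∀ x, RA.IsHSphere (link X x) (m + 1)) (ze : SChain B (m + b + 1))
    (hz : bd ze = 0) {o : ℕ → (Fin (m + 1) → ℕ) → ℤ} (H : Facts X Γ m o) (x₀ : ℕ)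
    (s₀ : Fin (m + 1) → ℕ) (hs₀ : s₀ ∈ Dom X (m + 1) x₀) (x : ℕ) :
    (∃ s, s ∈ Dom X (m + 1) x) ∧ ∀ s ∈ Dom X (m + 1) x,
    Eqv (FbL Γ π ρ (show m + b + 1 = (m + 1) + b by omega) (cupW X x s) ze)
      (FbL Γ π ρ (show m + b + 1 = (m + 1) + b by omega) (cupW X x₀ s₀) ze) := by
  obtain ⟨p⟩ := hX.conn.preconnected x₀ x
  induction p generalizing s₀ with
  | nil => exact ⟨⟨s₀, hs₀⟩, fun s hs => same hFB4 hFB5 hπ hρ ze hz H _ s₀ s hs₀ hs⟩
  | @cons u v w huv q ih =>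
    obtain ⟨t, ht, h1⟩ := step hFB4 hFB5 hFLW h8a hX hf hπ hρ hS ze hz H u v huv s₀ hs₀
    obtain ⟨h2, h3⟩ := ih t ht
    exact ⟨h2, fun s hs => (h3 s hs).trans h1⟩

end rel

theorem prfFGM (hDIM : S_DIM) (hDBD : S_DBD) (hNLO : S_NLO) (hUFU : S_UFU) (hZ6 : S_ZC6)
    (hMG5 : S_MG5) (hWA2 : S_WA2) (hWA3 : S_WA3) (hCXB : S_CXB) (hFB2 : S_FB2) (hFB3 : S_FB3)
    (hFB4 : S_FB4) (hFB5 : S_FB5) (hFB6 : S_FB6) (hFS2 : S_FS2) (hCWF : S_CWF) (hFLW : S_FLW)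
    (hNEB : S_NEB) (hONE : S_ONE) (hPAI : S_PAI) (hLR3 : S_LR3) (h7a : RA.S_B7a)
    (h8a : RA.S_B8a) : S_FGM := by
  intro m N
  obtain ⟨Bn, hB⟩ := hDBD (m + 1) (m + 1)
  obtain ⟨C, hC, hL⟩ := hNLO m N
  set K : ℝ := Bn * ((m + 2) * C) with hK
  have hK0 : 0 ≤ K := by positivity
  refine ⟨1 / (2 ^ m * (K + 1)), by positivity, ?_⟩
  intro X hX hf hS Γ F hD A B W _ _ _ _ _ π hπ ρ hρ b z hz x₀ s₀ hs₀ r ν hν w
  have hflag := fun x => ((hZ6 X hX hf).1 x).1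
  have hdim : ∀ x, ∀ s ∈ link X x, s.card ≤ m + 1 := fun x =>
    hDIM (link X x) (hflag x) (m + 1) (hS x)
  choose o hor ho1 using fun x => hLR3 (link X x) (hflag x) m (hS x)
  have H : Facts X Γ m o := by
    refine ⟨hflag, hor, ho1, ?_, ?_, ?_, ?_, ?_, ?_⟩
    · intro x y
      obtain ⟨D⟩ := hMG5 X hX
      exact EV1.In_face hf D (hWA2 X hX D).1
        (fun x a b ha hb hab => (hWA3 X hX D x a b ha hb hab).1) x y
    · intro k x c hc
      exact hNEB X hX hf Γ F hD k x c hc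
    · intro x s hs T hT
      rw [ZC4.mem_Dom] at hs
      exact hFS2 (link X x) (hflag x) m (hdim x) s hs.1 hs.2 T hT
    · intro x s hs v
      exact hCWF X hX hf m x s hs v
    · intro x f f2 h1 h2 h3 h4
      exact hONE (link X x) (hflag x) m (hS x) (RA.zeta (link X x) (o x))
        (zeta_DT (hflag x) (hor x)) (NL1P.bd_zeta h7a (hor x)) f f2 h1 h2 h3 h4
    · intro x s hs
      rw [ZC4.mem_Dom] at hs
      exact hPAI (link X x) (hflag x) m (o x) (hor x) s hs.1 hs.2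
  set Q : ℕ → ℝ := fun x => |∑ s ∈ link X x, (-1 / 2 : ℝ) ^ s.card| with hQ
  set z' : SChain B (m + b + 1) := push π z + bd w with hz'
  -- the trivial case
  by_cases hν0 : ν < 0
  · have h1 : 1 / (2 ^ m * (K + 1)) * (∑ x ∈ F.filter (Tame X m N), Q x) * ν ≤ 0 := by
      apply mul_nonpos_of_nonneg_of_nonpos _ hν0.le
      have : 0 ≤ ∑ x ∈ F.filter (Tame X m N), Q x := Finset.sum_nonneg fun x _ => abs_nonneg _
      positivity
    exact h1.trans (l1_nonneg z')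
  push Not at hν0
  -- local functions
  have hloc : ∀ x, ∃ f : (Fin (m + 1) → Finset ℕ) → ℝ,
      (∀ T : Fin (m + 2) → Finset ℕ, KF (link X x) T → RA.dl f T = 0) ∧ (∀ T, |f T| ≤ C) ∧
      (Tame X m N x → Q x ≤ Finsupp.linearCombination ℝ f (RA.zeta (link X x) (o x))) := by
    intro x
    by_cases hTm : Tame X m N x
    · obtain ⟨f, h1, h2, h3, h4⟩ := hL (link X x) (hflag x) (hS x) (o x) (hor x) (by
        rcases hTm with h | h
        · left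
          rw [((hZ6 X hX hf).1 x).2.1]
          exact h
        · right
          exact h)
      exact ⟨f, h1, h2, fun _ => h4⟩
    · refine ⟨fun _ => 0, fun T _ => ?_, fun T => ?_, fun h => absurd h hTm⟩
      · simp [RA.dl]
      · simpa using hC
  choose f0 hf1 hf2 hf4 using hloc
  obtain ⟨f, hE, hV, hfC, hfx⟩ := hUFU X hX hf Γ F hD m f0 C hC (fun x _ => hf1 x)
    fun x _ T _ => hf2 x T
  obtain ⟨hc, hLF, hsum, hLV⟩ := hCXB X hX hf Γ F hD m Bn (fun v Z hZ => hB X hX hf hdim v Z hZ)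
    f hE hV C hfC
  set fb : ℕ → SChain B (m + b + 1) →ₗ[ℝ] SChain A b := fun x =>
    FbL Γ π ρ (show m + b + 1 = (m + 1) + b by omega) (cx X (f x) x) with hfb
  have hbound : ∑ x ∈ F, l1 (fb x z') ≤ K * l1 z' :=
    hFB3 Γ A B π hπ ρ hρ (m + 1) b (m + b + 1) (by omega) F (fun x => cx X (f x) x) hLF K hsum z'
  -- the fibre chain
  have hfib : fibW X Γ ρ (show m + b + 1 = (m + 1) + b by omega) x₀ s₀ z =
      FbL Γ π ρ (show m + b + 1 = (m + 1) + b by omega) (cupW X x₀ s₀) (push π z) := by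
    rw [hFB6 Γ A B π hπ ρ hρ (m + 1) b (m + b + 1) (by omega) (cupW X x₀ s₀) (LFn_cup H hs₀) z]
    rfl
  -- lower bound at one vertex
  have hlow : ∀ x ∈ F.filter (Tame X m N), (Q x / 2 ^ m) * ν ≤ l1 (fb x z') := by
    intro x hx
    obtain ⟨hxF, hxT⟩ := Finset.mem_filter.1 hx
    set ζ : ℝ := Finsupp.linearCombination ℝ (f x) (RA.zeta (link X x) (o x)) with hζ
    have hζ1 : Q x ≤ ζ := by
      refine (hf4 x hxT).trans (le_of_eq ?_)
      rw [hζ, Finsupp.linearCombination_apply, Finsupp.linearCombination_apply]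
      refine Finsupp.sum_congr fun T hTs => ?_
      rw [hfx x hxF T fun i => ((zeta_DT (hflag x) (hor x) T hTs).1 i).1]
    obtain ⟨⟨s, hs⟩, hconn⟩ := conn hFB4 hFB5 hFLW h8a hX hf hπ hρ hS (push π z) hz H x₀ s₀ hs₀ x
    obtain ⟨ε, hε, y2, hy2⟩ := hconn s hs
    obtain ⟨y1, hy1⟩ := vert hFB4 hFB5 hπ hρ (push π z) hz H x (f x)
      (fun T hT => hV x T (DT_KF hT)) s hs
    set γ : ℝ := Finsupp.linearCombination ℝ (f x) (RA.zeta (link X x) (o x)) /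
      ((-2 : ℝ) ^ m * (o x s : ℝ)) with hγ
    have h5 := hFB2 Γ A B π hπ ρ hρ (m + 1) b (m + b + 1) (by omega) (cx X (f x) x) (hLF x)
      (hc x) w
    have h4 : fb x z' = (γ * ε) • fibW X Γ ρ (show m + b + 1 = (m + 1) + b by omega) x₀ s₀ z +
        bd (γ • y2 + y1 + (-1 : ℝ) ^ (m + 1) •
          FbL Γ π ρ (show m + b + 1 + 1 = (m + 1) + (b + 1) by omega) (cx X (f x) x) w) := by
      rw [hz', map_add, hfib]
      have h6 : fb x (bd w) = (-1 : ℝ) ^ (m + 1) • bd (FbL Γ π ρ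
        (show m + b + 1 + 1 = (m + 1) + (b + 1) by omega) (cx X (f x) x) w) := h5
      have h7 : fb x (push π z) = γ • FbL Γ π ρ (show m + b + 1 = (m + 1) + b by omega)
        (cupW X x s) (push π z) + bd y1 := hy1
      rw [h6, h7, hy2, bd_add, bd_add, bd_smul, bd_smul, smul_add, smul_smul]
      abel
    have h7 := le_l1_of_class (push r (fibW X Γ ρ (show m + b + 1 = (m + 1) + b by omega)
      x₀ s₀ z)) ν hν (γ * ε) (push r (γ • y2 + y1 + (-1 : ℝ) ^ (m + 1) •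
          FbL Γ π ρ (show m + b + 1 + 1 = (m + 1) + (b + 1) by omega) (cx X (f x) x) w))
    rw [bd_push, ← push_smul, ← push_add, ← h4] at h7
    refine le_trans ?_ (h7.trans (l1_push_le r _))
    have h8 : |γ * ε| = |ζ| / 2 ^ m := by
      have h9 : |ε| = 1 := by rcases hε with h | h <;> rw [h] <;> norm_num
      have h10 : |(o x s : ℝ)| = 1 := by
        rcases or_abs H hs with h | h <;> rw [h] <;> norm_num
      rw [abs_mul, h9, mul_one, hγ, abs_div, abs_mul, abs_pow, h10, mul_one, abs_neg]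
      norm_num
      rfl
    rw [h8]
    have h13 : Q x ≤ |ζ| := hζ1.trans (le_abs_self _)
    gcongr
  have hfinal : ((∑ x ∈ F.filter (Tame X m N), Q x) / 2 ^ m) * ν ≤ K * l1 z' := by
    have h1 : ((∑ x ∈ F.filter (Tame X m N), Q x) / 2 ^ m) * ν =
        ∑ x ∈ F.filter (Tame X m N), (Q x / 2 ^ m) * ν := by
      rw [← Finset.sum_mul, Finset.sum_div]
    rw [h1]
    refine (Finset.sum_le_sum hlow).trans (le_trans ?_ hbound)
    exact Finset.sum_le_sum_of_subset_of_nonneg (Finset.filter_subset _ _)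
      fun x _ _ => l1_nonneg _
  have h1 : 1 / (2 ^ m * (K + 1)) * (∑ x ∈ F.filter (Tame X m N), Q x) * ν =
      (((∑ x ∈ F.filter (Tame X m N), Q x) / 2 ^ m) * ν) / (K + 1) := by
    field_simp
  rw [h1, div_le_iff₀ (by positivity)]
  have h2 := l1_nonneg z'
  linarith

end Fg

end MP8a95ee.Npc
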