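import Pool.Agent.Work.MP_8a95ee_gt.Fg.Defs

/-!
# Spaces over nonpositively curved cubulated manifolds: statements of the items

Theorem FG (helper42, note of 4 Dec 11:50Z).

* singular chains: `S_FB4` (Leibniz rule), `S_FB5` (linearity), `S_FB6` (value on a push forward).
* `S_FS1`, `S_FS2`: the local function of a facet; `S_CWF`, `S_FLW`: the cochain of a cube.
* `S_NEA`, `S_NEB`: far tuples.
* `S_ETA`, `S_HMT`, `S_HDT`, `S_DUA`, `S_ONE`: tuples of faces with a common vertex.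
* `S_PAI`: the pairing with `ζ`.
* `S_LR1`, `S_LR2`, `S_LR3`: orientations of homology spheres.
-/

set_option autoImplicit false

namespace MP8a95ee.Npc

open Classical

/-! ### Singular chains -/

/-- FB4: the Leibniz rule -/
def S_FB4 : Prop := ∀ (Γ : Subgroup (Equiv.Perm ℕ)) (A B : Type) [TopologicalSpace A]
  [TopologicalSpace B] [MulAction Γ A] [ContinuousConstSMul Γ A] (π : C(A, B)) (_ : IsReg Γ π)
  (ρ : A → ℕ) (_ : ∀ (g : Γ) (a : A), ρ (g • a) = g • ρ a) (k b N : ℕ) (h : N = k + b)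
  (c : (Fin (k + 1) → ℕ) → ℝ) (_ : LFn Γ c) (w : SChain B (N + 1)),
  FbL Γ π ρ h c (bd w) =
    FbL Γ π ρ (show N + 1 = (k + 1) + b by omega) (fun v => RA.dl c v) w +
    (-1 : ℝ) ^ k • bd (FbL Γ π ρ (show N + 1 = k + (b + 1) by omega) c w)

/-- FB5: linearity in the function -/
def S_FB5 : Prop := ∀ (Γ : Subgroup (Equiv.Perm ℕ)) (A B : Type) [TopologicalSpace A]
  [TopologicalSpace B] [MulAction Γ A] [ContinuousConstSMul Γ A] (π : C(A, B))
  (ρ : A → ℕ) (_ : ∀ (g : Γ) (a : A), ρ (g • a) = g • ρ a) (k b N : ℕ) (h : N = k + b)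
  (c c' : (Fin (k + 1) → ℕ) → ℝ) (_ : LFn Γ c) (_ : LFn Γ c') (u u' : ℝ) (w : SChain B N),
  FbL Γ π ρ h (fun v => u * c v + u' * c' v) w =
    u • FbL Γ π ρ h c w + u' • FbL Γ π ρ h c' w

/-- FB6: the value on the image of a chain of `A` -/
def S_FB6 : Prop := ∀ (Γ : Subgroup (Equiv.Perm ℕ)) (A B : Type) [TopologicalSpace A]
  [TopologicalSpace B] [MulAction Γ A] [ContinuousConstSMul Γ A] (π : C(A, B)) (_ : IsReg Γ π)
  (ρ : A → ℕ) (_ : ∀ (g : Γ) (a : A), ρ (g • a) = g • ρ a) (k b N : ℕ) (h : N = k + b)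
  (c : (Fin (k + 1) → ℕ) → ℝ) (_ : LFn Γ c) (z : SChain A N),
  FbL Γ π ρ h c (push π z) = z.sum fun τ r => ∑ᶠ g : Γ, Finsupp.single (bkS h (actS g τ))
    (r * c fun i => g • ρ (τ (vtx ⟨i, by omega⟩)))

/-! ### The local function of a facet and the cochain of a cube -/

/-- the indicator of `a` -/
noncomputable def hI (a : ℕ) (T : Finset ℕ) : ℝ := if a ∈ T then 1 else 0

/-- the local function of the facet `s` -/
noncomputable def fS {m : ℕ} (s : Fin (m + 1) → ℕ) (T : Fin (m + 1) → Finset ℕ) : ℝ :=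
  hI (s 0) (T 0) * ∏ i : Fin m, (hI (s i.succ) (T i.succ) - hI (s i.succ) (T i.castSucc))

/-- tuples of nonempty faces with a common vertex -/
def DT (L : Finset (Finset ℕ)) {k : ℕ} (T : Fin k → Finset ℕ) : Prop :=
  (∀ i, T i ∈ L ∧ (T i).Nonempty) ∧ RA.InK T

/-- FS1: the coboundary of `fS s` -/
def S_FS1 : Prop := ∀ (m : ℕ) (s : Fin (m + 1) → ℕ) (T : Fin (m + 2) → Finset ℕ),
  RA.dl (fS s) T = ∏ i : Fin (m + 1), (hI (s i) (T i.succ) - hI (s i) (T i.castSucc))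

/-- FS2: it vanishes on the tuples of faces with a common vertex -/
def S_FS2 : Prop := ∀ (L : Finset (Finset ℕ)) (_ : FlagC L) (m : ℕ)
  (_ : ∀ s ∈ L, s.card ≤ m + 1) (s : Fin (m + 1) → ℕ) (_ : Function.Injective s)
  (_ : Finset.univ.image s ∈ L) (T : Fin (m + 2) → Finset ℕ), DT L T → RA.dl (fS s) T = 0

/-- CWF: the cochain of a cube is the cochain of a local function -/
def S_CWF : Prop := ∀ (X : SimpleGraph ℕ) (_ : IsMedianGraph X) (_ : LocFin X) (m : ℕ) (x : ℕ)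
  (s : Fin (m + 1) → ℕ) (_ : s ∈ Dom X (m + 1) x) (v : Fin (m + 2) → ℕ),
  cupW X x s v = cx X (fS s) x v

/-- FLW: change of the corner -/
def S_FLW : Prop := ∀ (X : SimpleGraph ℕ) (_ : IsMedianGraph X) (_ : LocFin X) (m : ℕ) (x : ℕ)
  (s : Fin (m + 1) → ℕ) (_ : s ∈ Dom X (m + 1) x) (v : Fin (m + 2) → ℕ),
  (fun j => if j = 0 then x else corner X x {s 0, s j}) ∈ Dom X (m + 1) (s 0) ∧
  cupW X (s 0) (fun j => if j = 0 then x else corner X x {s 0, s j}) v = - cupW X x s v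

/-! ### Far tuples -/

/-- some neighbour `a` of `x` is between `x` and every vertex of the tuple -/
def Far (X : SimpleGraph ℕ) (x : ℕ) {k : ℕ} (u : Fin k → ℕ) : Prop := ∃ a, ∀ i, a ∈ In X x (u i)

/-- NEA: distance of `x` from a tuple which is not far -/
def S_NEA : Prop := ∀ (X : SimpleGraph ℕ) (_ : IsMedianGraph X) (_ : LocFin X) (k : ℕ) (x : ℕ)
  (u : Fin (k + 1) → ℕ), ¬ Far X x u → X.dist x (u 0) ≤ ∑ i, X.dist (u 0) (u i)

/-- NEB: local finiteness -/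
def S_NEB : Prop := ∀ (X : SimpleGraph ℕ) (_ : IsMedianGraph X) (_ : LocFin X)
  (Γ : Subgroup (Equiv.Perm ℕ)) (F : Finset ℕ) (_ : IsDeck X Γ F) (k : ℕ) (x : ℕ)
  (c : (Fin (k + 1) → ℕ) → ℝ) (_ : ∀ u, Far X x u → c u = 0), LFn Γ c

/-! ### Tuples of faces with a common vertex -/

/-- the flag of a tuple of vertices -/
def flT {k : ℕ} (s : Fin k → ℕ) (i : Fin k) : Finset ℕ :=
  (Finset.univ.filter fun j => j ≤ i).image s

/-- the sign of a tuple -/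
noncomputable def sgT {k : ℕ} (s : Fin k → ℕ) : ℝ :=
  ∏ p ∈ Finset.univ.filter (fun p : Fin k × Fin k => p.1 < p.2), if s p.1 < s p.2 then 1 else -1

/-- barycentric subdivision: from simplicial chains to chains of flags -/
noncomputable def eta (L : Finset (Finset ℕ)) (k : ℕ) (c : Finset ℕ → ℝ) :
    RA.Ch (Finset ℕ) k :=
  ∑ s ∈ (Fintype.piFinset fun _ : Fin k => verts L).filter Function.Injective,
    Finsupp.single (flT s) (sgT s * c (Finset.univ.image s))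

/-- ETA: a chain map -/
def S_ETA : Prop := ∀ (L : Finset (Finset ℕ)) (k : ℕ) (c : Finset ℕ → ℝ),
  RA.bdT (eta L (k + 1) c) = eta L k (RA.bdS L c)

/-- HMT: homotopy -/
def S_HMT : Prop := ∀ (L : Finset (Finset ℕ)) (_ : FlagC L)
  (ψ : ∀ k, (Fin k → Finset ℕ) → Finset ℕ → ℝ) (_ : RA.IsPsi L ψ),
  ∃ h : ∀ k, (Fin k → Finset ℕ) → RA.Ch (Finset ℕ) (k + 1),
    (∀ k (T : Fin k → Finset ℕ), DT L T → ∀ R ∈ (h k T).support, DT L R ∧ ∀ i, R i ⊆ RA.Wt T) ∧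
    ∀ k (T : Fin (k + 1) → Finset ℕ), DT L T →
      RA.bdT (h (k + 1) T) + ∑ j : Fin (k + 1), (-1 : ℝ) ^ (j : ℕ) • h k (fun i => T (j.succAbove i)) =
        eta L (k + 1) (ψ (k + 1) T) - Finsupp.single T 1

/-- HDT: the homology in top degree -/
def S_HDT : Prop := ∀ (L : Finset (Finset ℕ)) (_ : FlagC L) (m : ℕ)
  (_ : RA.IsHSphere L (m + 1)), ∃ z1 : RA.Ch (Finset ℕ) (m + 1),
  ∀ z : RA.Ch (Finset ℕ) (m + 1), (∀ T ∈ z.support, DT L T) → RA.bdT z = 0 →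
    ∃ (μ : ℝ) (y : RA.Ch (Finset ℕ) (m + 2)), (∀ T ∈ y.support, DT L T) ∧
      z = μ • z1 + RA.bdT y

/-- DUA: duality -/
def S_DUA : Prop := ∀ (S : Type) (K : ∀ k : ℕ, (Fin k → S) → Prop) (m : ℕ)
  (f : (Fin (m + 1) → S) → ℝ)
  (_ : ∀ z : RA.Ch S (m + 1), (∀ T ∈ z.support, K (m + 1) T) → RA.bdT z = 0 →
    Finsupp.linearCombination ℝ f z = 0),
  ∃ f' : (Fin m → S) → ℝ, ∀ T : Fin (m + 1) → S, K (m + 1) T → f T = RA.dl f' T

/-- ONE: local cocycles are proportional -/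
def S_ONE : Prop := ∀ (L : Finset (Finset ℕ)) (_ : FlagC L) (m : ℕ)
  (_ : RA.IsHSphere L (m + 1)) (z : RA.Ch (Finset ℕ) (m + 1)) (_ : ∀ T ∈ z.support, DT L T)
  (_ : RA.bdT z = 0) (f f2 : (Fin (m + 1) → Finset ℕ) → ℝ)
  (_ : ∀ T : Fin (m + 2) → Finset ℕ, DT L T → RA.dl f T = 0)
  (_ : ∀ T : Fin (m + 2) → Finset ℕ, DT L T → RA.dl f2 T = 0)
  (_ : Finsupp.linearCombination ℝ f2 z ≠ 0) (_ : Finsupp.linearCombination ℝ f z = 0),
  ∃ f' : (Fin m → Finset ℕ) → ℝ, ∀ T : Fin (m + 1) → Finset ℕ, DT L T → f T = RA.dl f' T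

/-- PAI: the pairing with `ζ` -/
def S_PAI : Prop := ∀ (L : Finset (Finset ℕ)) (_ : FlagC L) (m : ℕ)
  (o : (Fin (m + 1) → ℕ) → ℤ) (_ : IsOrient L (m + 1) o) (s : Fin (m + 1) → ℕ)
  (_ : Function.Injective s) (_ : Finset.univ.image s ∈ L),
  Finsupp.linearCombination ℝ (fS s) (RA.zeta L o) = (-2 : ℝ) ^ m * (o s : ℝ)

/-! ### Orientations of homology spheres -/

/-- LR1: codimension one faces are contained in exactly two facets -/
def S_LR1 : Prop := ∀ (L : Finset (Finset ℕ)) (_ : FlagC L) (n : ℕ) (_ : RA.IsHSphere L n)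
  (s : Finset ℕ) (_ : s ∈ L) (_ : s.card + 1 = n),
  ∃ a b, a ≠ b ∧ ∀ c, (c ∉ s ∧ insert c s ∈ L) ↔ (c = a ∨ c = b)

/-- LR2: a top dimensional cycle has the same absolute value on all facets -/
def S_LR2 : Prop := ∀ (L : Finset (Finset ℕ)) (_ : FlagC L) (n : ℕ) (_ : RA.IsHSphere L n)
  (k : ℕ) (s : Finset ℕ) (_ : s ∈ L) (_ : s.card + (k + 1) = n) (c : Finset ℕ → ℝ)
  (_ : RA.LkChain L s (k + 1) c) (_ : RA.bdS L c = 0),
  ∃ α : ℝ, 0 ≤ α ∧ ∀ t, t ∈ L → Disjoint s t → s ∪ t ∈ L → t.card = k + 1 → |c t| = α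

/-- LR3: orientations exist -/
def S_LR3 : Prop := ∀ (L : Finset (Finset ℕ)) (_ : FlagC L) (m : ℕ)
  (_ : RA.IsHSphere L (m + 1)), ∃ o : (Fin (m + 1) → ℕ) → ℤ, IsOrient L (m + 1) o ∧
    ∀ s, |o s| ≤ 1

end MP8a95ee.Npc
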